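import Pool.Agent.H519R3.RS.Step
import Pool.Agent.Y177.Tor.Filt

/-! The condition on the leading forms for filtrations generated by weighted elements. -/

set_option autoImplicit false

universe u

open Pool.Agent.H519R3.RS

namespace Pool.Agent.Y177.Ga

open Pool.Agent.Y177.Tor

variable {B : Type u} [CommRing B] (G : B → ℕ → Prop) (δ : B → B) (l : ℕ)

lemma le_leadI (m : ℕ) : Gf G (m + 1) ≤ leadI δ (Gf G) l m := le_sup_left

lemma leadI_gen {m e : ℕ} {c b : B} (hc : c ∈ Gf G e) (hb : b ∈ Gf G (m - (e + l))) :
    b * δ c ∈ leadI δ (Gf G) l m :=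
  (le_sup_right : _ ≤ leadI δ (Gf G) l m) (Ideal.subset_span ⟨e, c, hc, b, hb, rfl⟩)

lemma leadI_mul {m e : ℕ} {x y : B} (hx : x ∈ leadI δ (Gf G) l m) (hy : y ∈ Gf G e) :
    x * y ∈ leadI δ (Gf G) l (m + e) := by
  unfold leadI at hx
  obtain ⟨a, ha, b, hb, rfl⟩ := Submodule.mem_sup.1 hx
  rw [add_mul]
  refine Ideal.add_mem _ ?_ ?_
  · refine le_leadI G δ l _ ?_
    exact Gf_anti G _ _ (by omega) (mul_mem_Gf G ha hy)
  · clear hx ha
    induction hb using Submodule.span_induction with
    | mem z hz =>
      obtain ⟨e', c, hc, b, hb, rfl⟩ := hz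
      have h1 : b * δ c * y = (b * y) * δ c := by ring
      rw [h1]
      exact leadI_gen G δ l hc (Gf_anti G _ _ (by omega) (mul_mem_Gf G hb hy))
    | zero => rw [zero_mul]; exact Ideal.zero_mem _
    | add x z _ _ h1 h2 =>
      rw [add_mul]
      exact Ideal.add_mem _ h1 h2
    | smul r z _ h1 =>
      rw [smul_eq_mul, mul_assoc]
      exact Ideal.mul_mem_left _ _ h1

/-- It suffices to check the condition on the leading forms for the generators. -/
lemma leadI_of_gens (h : ∀ b w, G b w → 1 ≤ w → ∃ N : ℕ, b ^ N ∈ leadI δ (Gf G) l (N * w))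
    (d : ℕ) (hd : 1 ≤ d) (a : B) (ha : a ∈ Gf G d) :
    ∃ N : ℕ, a ^ N ∈ leadI δ (Gf G) l (N * d) := by
  have key : a ∈ Gf G d ∧ ∃ N : ℕ, a ^ N ∈ leadI δ (Gf G) l (N * d) := by
    unfold Gf at ha
    induction ha using Submodule.span_induction with
    | mem y hy =>
      obtain ⟨t, ht, hdt, rfl⟩ := hy
      refine ⟨prod_mem G ht hdt, ?_⟩
      rcases Nat.lt_or_ge d (t.map Prod.snd).sum with h1 | h1
      · refine ⟨1, le_leadI G δ l _ ?_⟩
        rw [pow_one, one_mul]
        exact prod_mem G ht h1
      · have hds : (t.map Prod.snd).sum = d := le_antisymm h1 hdt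
        obtain ⟨q, hq, hq1⟩ : ∃ q ∈ t, 1 ≤ q.2 := by
          by_contra hcon
          push Not at hcon
          have h2 : (t.map Prod.snd).sum = 0 := by
            apply List.sum_eq_zero
            intro x hx
            obtain ⟨q, hq, rfl⟩ := List.mem_map.1 hx
            have := hcon q hq
            omega
          omega
        obtain ⟨t1, t2, rfl⟩ := List.append_of_mem hq
        obtain ⟨N, hN⟩ := h q.1 q.2 (ht q hq) hq1
        refine ⟨N, ?_⟩
        have h3 : ((t1 ++ q :: t2).map Prod.fst).prod =
            q.1 * ((t1 ++ t2).map Prod.fst).prod := by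
          simp only [List.map_append, List.map_cons, List.prod_append, List.prod_cons]
          ring
        have h4 : ((t1 ++ q :: t2).map Prod.snd).sum =
            q.2 + ((t1 ++ t2).map Prod.snd).sum := by
          simp only [List.map_append, List.map_cons, List.sum_append, List.sum_cons]
          ring
        have h5 : ((t1 ++ t2).map Prod.fst).prod ∈ Gf G ((t1 ++ t2).map Prod.snd).sum := by
          refine prod_mem G (fun q' hq' => ht q' ?_) le_rfl
          rcases List.mem_append.1 hq' with h6 | h6
          · exact List.mem_append_left _ h6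
          · exact List.mem_append_right _ (List.mem_cons_of_mem _ h6)
        rw [h3, mul_pow, ← hds, h4, mul_add]
        exact leadI_mul G δ l hN (pow_mem_Gf G h5 N)
    | zero =>
      refine ⟨Ideal.zero_mem _, 1, ?_⟩
      rw [pow_one]
      exact Ideal.zero_mem _
    | add x y _ _ hx hy =>
      obtain ⟨hx0, N, hN⟩ := hx
      obtain ⟨hy0, M, hM⟩ := hy
      refine ⟨Ideal.add_mem _ hx0 hy0, N + M, ?_⟩
      rw [add_pow]
      refine Ideal.sum_mem _ fun i hi => ?_
      rw [Finset.mem_range] at hi
      refine Ideal.mul_mem_right _ _ ?_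
      rcases Nat.lt_or_ge i N with h1 | h1
      · have h2 : x ^ i * y ^ (N + M - i) = y ^ M * (x ^ i * y ^ (N - i)) := by
          have : y ^ (N + M - i) = y ^ M * y ^ (N - i) := by
            rw [← pow_add]; congr 1; omega
          rw [this]; ring
        have h3 : (N + M) * d = M * d + (i * d + (N - i) * d) := by
          have : N + M = M + (i + (N - i)) := by omega
          rw [this]; ring
        rw [h2, h3]
        exact leadI_mul G δ l hM (mul_mem_Gf G (pow_mem_Gf G hx0 i) (pow_mem_Gf G hy0 _))
      · have h2 : x ^ i * y ^ (N + M - i) = x ^ N * (x ^ (i - N) * y ^ (N + M - i)) := by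
          have : x ^ i = x ^ N * x ^ (i - N) := by
            rw [← pow_add]; congr 1; omega
          rw [this]; ring
        have h3 : (N + M) * d = N * d + ((i - N) * d + (N + M - i) * d) := by
          have : N + M = N + ((i - N) + (N + M - i)) := by omega
          rw [← add_mul, ← add_mul]
          congr 1
        rw [h2, h3]
        exact leadI_mul G δ l hN (mul_mem_Gf G (pow_mem_Gf G hx0 _) (pow_mem_Gf G hy0 _))
    | smul r x _ hx =>
      obtain ⟨hx0, N, hN⟩ := hx
      refine ⟨Ideal.mul_mem_left _ _ hx0, N, ?_⟩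
      rw [smul_eq_mul, mul_pow]
      exact Ideal.mul_mem_left _ _ hN
  exact key.2

end Pool.Agent.Y177.Ga
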