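import Pool.Agent.Y177.Ga.Main
import Pool.Agent.Y177.Ga.Gen
import Pool.Agent.Y177.Tor.Coord
import Pool.Agent.H519R3.RS.Centre
import Pool.Agent.H519R3.RS.Tower

/-! The linear actions of the additive group given by the exponential of a nilpotent matrix. -/

set_option autoImplicit false
set_option linter.unusedSectionVars false

open AlgebraicGeometry CategoryTheory Polynomial Pool.Agent.H920R2 Pool.Agent.H519R3.RS Pool.Agent.Y177.Tor

universe u

namespace Pool.Agent.Y177.Ga

section coassoc

variable {k B : Type*} [Field k] [CommRing B] [Algebra k B]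

lemma coeff_aeval_add (q : B[X]) (i j : ℕ) :
    ((Polynomial.aeval (R := B) (X + C X : B[X][X]) q).coeff j).coeff i =
      (i + j).choose i • q.coeff (i + j) := by
  induction q using Polynomial.induction_on' with
  | add p q hp hq =>
    rw [map_add, coeff_add, coeff_add, coeff_add, hp, hq, smul_add]
  | monomial n c =>
    rw [aeval_monomial, coeff_monomial]
    have h1 : algebraMap B B[X][X] c = C (C c) := rfl
    rw [h1, coeff_C_mul, coeff_X_add_C_pow, coeff_C_mul, ← Polynomial.C_eq_natCast, coeff_mul_C,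
      coeff_X_pow]
    split_ifs with h2 h3 h3
    · have h4 : i + j = n := h3.symm
      subst h4
      rw [one_mul, nsmul_eq_mul, mul_comm, Nat.choose_symm_add]
    · have h4 : n < j := by omega
      rw [Nat.choose_eq_zero_of_lt h4]
      simp
    · omega
    · simp

/-- The coassociativity is the axiom on the iterates. -/
lemma isAct_of (ρ : B →ₐ[k] B[X]) (h0 : ∀ b, (ρ b).coeff 0 = b)
    (h1 : (Polynomial.mapAlgHom ρ).comp ρ =
      ((Polynomial.aeval (R := B) (X + C X : B[X][X])).restrictScalars k).comp ρ) :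
    IsAct ρ where
  zero := h0
  iter i j b := by
    have h2 := congrArg (fun f : B →ₐ[k] B[X][X] => ((f b).coeff j).coeff i) h1
    simp only [AlgHom.comp_apply, AlgHom.restrictScalars_apply, coeff_aeval_add] at h2
    rw [← h2, Polynomial.coe_mapAlgHom, coeff_map]
    rfl

end coassoc

section lin

variable {k : Type u} [Field k] {n : ℕ}

/-- The linear forms. -/
noncomputable def ln (k : Type u) [Field k] (n : ℕ) :
    (Fin n → k) →ₗ[k] MvPolynomial (Fin n) k where
  toFun v := ∑ i, v i • (MvPolynomial.X i : MvPolynomial (Fin n) k)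
  map_add' u v := by simp [add_smul, Finset.sum_add_distrib]
  map_smul' c v := by simp [mul_smul, Finset.smul_sum]

lemma ln_single (i : Fin n) : ln k n (Pi.single i 1) = MvPolynomial.X i := by
  classical
  change ∑ j, (Pi.single i (1 : k) : Fin n → k) j • (MvPolynomial.X j : MvPolynomial (Fin n) k) =
    MvPolynomial.X i
  rw [Finset.sum_eq_single i]
  · simp
  · intro j _ hj
    simp [Pi.single_eq_of_ne hj]
  · simp

lemma tv_ln : TV k (MvPolynomial (Fin n) k) (fun _ : Fin 0 → ℤ => 1) (ln k n) where
  zero := rfl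
  add a b := (mul_one 1).symm
  uniq D _ _ g g' _ h2 := by
    apply MvPolynomial.algHom_ext
    intro i
    have := h2 (Pi.single i 1)
    rwa [ln_single] at this
  ex D _ _ Y h hY0 _ := by
    refine ⟨MvPolynomial.aeval fun i => h (Pi.single i 1), fun a => ?_, fun v => ?_⟩
    · rw [map_one, Subsingleton.elim a 0, hY0]
    · have h1 : v = ∑ i, v i • (Pi.single i 1 : Fin n → k) := by
        funext j
        rw [Finset.sum_apply, Finset.sum_eq_single j]
        · simp
        · intro i _ hij
          simp [Pi.single_eq_of_ne (Ne.symm hij)]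
        · simp
      conv_rhs => rw [h1, map_sum]
      change MvPolynomial.aeval _ (∑ i, v i • (MvPolynomial.X i : MvPolynomial (Fin n) k)) = _
      rw [map_sum]
      refine Finset.sum_congr rfl fun i _ => ?_
      rw [map_smul, map_smul, MvPolynomial.aeval_X]

/-- The action given by the exponential of a matrix. -/
noncomputable def ex (p : ℕ) (N : Module.End k (Fin n → k)) :
    MvPolynomial (Fin n) k →ₐ[k] (MvPolynomial (Fin n) k)[X] :=
  MvPolynomial.aeval fun i => ∑ m ∈ Finset.range p,
    monomial m (ln k n (((m.factorial : k)⁻¹) • (N ^ m) (Pi.single i 1)))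

variable {p : ℕ} {N : Module.End k (Fin n → k)} (hN : N ^ p = 0)

include hN in
lemma pow_zero_of_le {m : ℕ} (hm : p ≤ m) : N ^ m = 0 := by
  obtain ⟨c, rfl⟩ := Nat.exists_eq_add_of_le hm
  rw [pow_add, hN, zero_mul]

include hN in
lemma coeff_ex (v : Fin n → k) (m : ℕ) :
    (ex p N (ln k n v)).coeff m = ln k n (((m.factorial : k)⁻¹) • (N ^ m) v) := by
  let f : (Fin n → k) →ₗ[k] MvPolynomial (Fin n) k :=
    { toFun := fun v => (ex p N (ln k n v)).coeff m
      map_add' := fun a b => by rw [map_add, map_add, coeff_add]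
      map_smul' := fun a b => by rw [map_smul, map_smul, coeff_smul]; rfl }
  let g : (Fin n → k) →ₗ[k] MvPolynomial (Fin n) k :=
    (ln k n).comp (((m.factorial : k)⁻¹) • (N ^ m))
  have h1 : f = g := by
    apply (Pi.basisFun k (Fin n)).ext
    intro i
    rw [Pi.basisFun_apply]
    change (ex p N (ln k n (Pi.single i 1))).coeff m =
      ln k n (((m.factorial : k)⁻¹) • (N ^ m) (Pi.single i 1))
    rw [ln_single]
    unfold ex
    rw [MvPolynomial.aeval_X, finsetSum_coeff]
    simp only [coeff_monomial]
    rw [Finset.sum_ite_eq']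
    split_ifs with h2
    · rfl
    · rw [Finset.mem_range, not_lt] at h2
      rw [pow_zero_of_le hN h2, LinearMap.zero_apply, smul_zero, map_zero]
  exact congrArg (fun φ : (Fin n → k) →ₗ[k] MvPolynomial (Fin n) k => φ v) h1

include hN in
lemma isAct_ex [hp : Fact p.Prime] [CharP k p] : IsAct (ex p N) := by
  apply isAct_of
  · have h1 : ((Polynomial.aeval (R := MvPolynomial (Fin n) k)
        (0 : MvPolynomial (Fin n) k)).restrictScalars k).comp (ex p N) = AlgHom.id k _ := by
      apply MvPolynomial.algHom_ext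
      intro i
      rw [AlgHom.comp_apply, AlgHom.restrictScalars_apply, AlgHom.id_apply,
        Polynomial.coe_aeval_eq_eval, ← coeff_zero_eq_eval_zero, ← ln_single, coeff_ex hN]
      simp
    intro b
    have h2 := congrArg (fun f : MvPolynomial (Fin n) k →ₐ[k] MvPolynomial (Fin n) k => f b) h1
    simp only [AlgHom.comp_apply, AlgHom.restrictScalars_apply, AlgHom.id_apply,
      Polynomial.coe_aeval_eq_eval, ← coeff_zero_eq_eval_zero] at h2
    exact h2
  · apply MvPolynomial.algHom_ext
    intro i
    ext j m : 2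
    simp only [AlgHom.comp_apply, AlgHom.restrictScalars_apply, coeff_aeval_add]
    rw [Polynomial.coe_mapAlgHom, coeff_map]
    change ((ex p N) (((ex p N) (MvPolynomial.X i)).coeff j)).coeff m = _
    rw [← ln_single, coeff_ex hN, coeff_ex hN, coeff_ex hN, ← map_nsmul]
    congr 1
    rw [map_smul, ← Module.End.mul_apply, ← pow_add, smul_smul, ← Nat.cast_smul_eq_nsmul k,
      smul_smul]
    rcases Nat.lt_or_ge (m + j) p with h3 | h3
    · congr 1
      have h4 : ((m + j).factorial : k) ≠ 0 := by
        intro h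
        rw [CharP.cast_eq_zero_iff k p, hp.out.dvd_factorial] at h
        omega
      have h5 : (m.factorial : k) ≠ 0 := by
        intro h
        rw [CharP.cast_eq_zero_iff k p, hp.out.dvd_factorial] at h
        omega
      have h6 : (j.factorial : k) ≠ 0 := by
        intro h
        rw [CharP.cast_eq_zero_iff k p, hp.out.dvd_factorial] at h
        omega
      have h7 : (((m + j).choose m : ℕ) : k) * m.factorial * j.factorial = (m + j).factorial := by
        rw [Nat.choose_symm_add]
        exact_mod_cast congrArg (fun x : ℕ => (x : k)) (Nat.add_choose_mul_factorial_mul_factorial m j)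
      rw [← mul_inv, eq_comm, ← div_eq_mul_inv, div_eq_iff h4, eq_comm, ← h7]
      field_simp
    · rw [pow_zero_of_le hN h3, LinearMap.zero_apply, smul_zero, smul_zero]

/-- The filtration of the linear action. -/
noncomputable def Fl (p : ℕ) (N : Module.End k (Fin n → k)) (d : ℕ) :
    Ideal (MvPolynomial (Fin n) k) :=
  Gf (Gp (fun _ : Fin 0 → ℤ => (1 : MvPolynomial (Fin n) k)) (ln k n) 1 N p) d

lemma gl_cases {b : MvPolynomial (Fin n) k} {w : ℕ}
    (h : Gp (fun _ : Fin 0 → ℤ => (1 : MvPolynomial (Fin n) k)) (ln k n) 1 N p b w) :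
    b = 0 ∨ ∃ v, b = ln k n ((N ^ w) v) := by
  rcases h with ⟨j, μ, -, -, -, rfl⟩ | ⟨v, ⟨u, rfl⟩, rfl⟩
  · exact Or.inl (sub_self _)
  · exact Or.inr ⟨u, rfl⟩

lemma ln_mem (w : ℕ) (u : Fin n → k) : ln k n ((N ^ w) u) ∈ Fl p N w :=
  gen_mem _ (Or.inr ⟨_, ⟨u, rfl⟩, rfl⟩)

lemma isFilt_Fl : IsFilt (Fl p N) where
  zero := Gf_zero _
  anti := Gf_anti _
  mul := Gf_mul _

section

variable [hp : Fact p.Prime] [CharP k p]

include hN in
lemma coeff_mem_Fl (b : MvPolynomial (Fin n) k) : ∀ j, (ex p N b).coeff j ∈ Fl p N j := by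
  induction b using MvPolynomial.induction_on with
  | C c =>
    intro j
    have h1 : ex p N (MvPolynomial.C c) = algebraMap k _ c := (ex p N).commutes c
    rw [h1, Polynomial.algebraMap_apply, coeff_C]
    split_ifs with h2
    · rw [h2, isFilt_Fl.zero]; trivial
    · exact Ideal.zero_mem _
  | add a b ha hb =>
    intro j
    rw [map_add, coeff_add]
    exact Ideal.add_mem _ (ha j) (hb j)
  | mul_X a i ha =>
    intro j
    rw [map_mul, coeff_mul]
    refine Ideal.sum_mem _ fun x hx => ?_
    rw [← Finset.HasAntidiagonal.mem_antidiagonal.1 hx]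
    refine isFilt_Fl.mul _ _ (Ideal.mul_mem_mul (ha _) ?_)
    rw [← ln_single, coeff_ex hN, ← map_smul]
    exact ln_mem _ _

/-- The elements whose coefficients have high weight. -/
noncomputable def Wl (hN : N ^ p = 0) (d : ℕ) : Ideal (MvPolynomial (Fin n) k) where
  carrier := {b | ∀ j, (ex p N b).coeff j ∈ Fl p N (d + j)}
  zero_mem' := fun j => by rw [map_zero, coeff_zero]; exact Ideal.zero_mem _
  add_mem' := fun {a b} ha hb j => by
    rw [map_add, coeff_add]; exact Ideal.add_mem _ (ha j) (hb j)
  smul_mem' := fun c {b} hb j => by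
    rw [smul_eq_mul, map_mul, coeff_mul]
    refine Ideal.sum_mem _ fun x hx => ?_
    have h1 := isFilt_Fl.mul _ _ (Ideal.mul_mem_mul (coeff_mem_Fl hN c x.1) (hb x.2))
    have h2 : x.1 + (d + x.2) = d + j := by
      have := Finset.HasAntidiagonal.mem_antidiagonal.1 hx
      omega
    rwa [h2] at h1

include hN in
lemma div_Fl (d : ℕ) (b : MvPolynomial (Fin n) k) (hb : b ∈ Fl p N d) (j : ℕ) :
    (ex p N b).coeff j ∈ Fl p N (d + j * 1) := by
  have h1 : Fl p N d ≤ Wl hN d := by
    refine Gf_le _ ?_ ?_ ?_ ?_ d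
    · rw [Ideal.eq_top_iff_one]
      intro j
      rw [zero_add]
      exact coeff_mem_Fl hN 1 j
    · intro a b hab x hx j
      exact isFilt_Fl.anti _ _ (by omega) (hx j)
    · intro a b
      refine Ideal.mul_le.2 fun x hx y hy j => ?_
      rw [map_mul, coeff_mul]
      refine Ideal.sum_mem _ fun z hz => ?_
      have h1 := isFilt_Fl.mul _ _ (Ideal.mul_mem_mul (hx z.1) (hy z.2))
      have h2 : a + z.1 + (b + z.2) = a + b + j := by
        have := Finset.HasAntidiagonal.mem_antidiagonal.1 hz
        omega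
      rwa [h2] at h1
    · intro b w h
      rcases gl_cases h with rfl | ⟨v, rfl⟩
      · exact Ideal.zero_mem _
      · intro j
        rw [coeff_ex hN, ← Module.End.mul_apply, ← pow_add, ← map_smul, add_comm w j]
        exact ln_mem _ _
  rw [mul_one]
  exact h1 hb j

include hN in
lemma lead_Fl (d : ℕ) (hd : 1 ≤ d) (a : MvPolynomial (Fin n) k) (ha : a ∈ Fl p N d) :
    ∃ M : ℕ, a ^ M ∈ leadI (fun c => (ex p N c).coeff 1) (Fl p N) 1 (M * d) := by
  refine leadI_of_gens _ _ 1 ?_ d hd a ha
  intro b w h hw
  rcases gl_cases h with rfl | ⟨v, rfl⟩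
  · exact ⟨1, by rw [pow_one]; exact Ideal.zero_mem _⟩
  · obtain ⟨w', rfl⟩ := Nat.exists_eq_succ_of_ne_zero (show w ≠ 0 by omega)
    refine ⟨1, ?_⟩
    have h3 : ln k n ((N ^ (w' + 1)) v) = 1 * (ex p N (ln k n ((N ^ w') v))).coeff 1 := by
      rw [coeff_ex hN, one_mul, Nat.factorial_one, Nat.cast_one, inv_one, one_smul,
        ← Module.End.mul_apply, ← pow_add, add_comm w' 1]
    rw [pow_one, one_mul, Nat.succ_eq_add_one, h3]
    refine leadI_gen _ _ 1 (e := w') (c := ln k n ((N ^ w') v)) (ln_mem _ _) ?_
    rw [Nat.sub_self, Gf_zero]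
    trivial

lemma one_le_of (P : Ideal (MvPolynomial (Fin n) k))
    (h : ∀ w u, 1 ≤ w → ln k n ((N ^ w) u) ∈ P) : Fl p N 1 ≤ P := by
  have h1 : Fl p N 1 ≤ (fun d : ℕ => if d = 0 then (⊤ : Ideal (MvPolynomial (Fin n) k)) else P)
      1 := by
    refine Gf_le (W := fun d : ℕ => if d = 0 then (⊤ : Ideal (MvPolynomial (Fin n) k)) else P) _
      (if_pos rfl) ?_ ?_ ?_ 1
    · intro a b hab
      split_ifs with h2 h3 h3
      · exact le_rfl
      · omega
      · exact le_top
      · exact le_rfl
    · intro a b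
      by_cases ha : a = 0
      · subst ha
        rw [if_pos rfl, zero_add]
        refine Ideal.mul_le.2 fun x _ y hy => Ideal.mul_mem_left _ _ hy
      · rw [if_neg ha, if_neg (show ¬ a + b = 0 by omega)]
        refine Ideal.mul_le.2 fun x hx y _ => Ideal.mul_mem_right _ _ hx
    · intro b w h'
      rcases gl_cases h' with rfl | ⟨v, rfl⟩
      · exact Ideal.zero_mem _
      · split_ifs with h2
        · trivial
        · exact h w v (by omega)
  simpa using h1

include hN in
lemma fix_Fl (P : Ideal (MvPolynomial (Fin n) k)) (h : ∀ b, (ex p N b).coeff 1 ∈ P) :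
    Fl p N 1 ≤ P := by
  refine one_le_of P fun w u hw => ?_
  obtain ⟨w', rfl⟩ := Nat.exists_eq_succ_of_ne_zero (show w ≠ 0 by omega)
  have h3 := h (ln k n ((N ^ w') u))
  rw [coeff_ex hN, Nat.factorial_one, Nat.cast_one, inv_one, one_smul,
    ← Module.End.mul_apply, ← pow_add, add_comm 1 w'] at h3
  exact h3

include hN in
lemma fixA_Fl (a : k) (ha : a ≠ 0) (P : Ideal (MvPolynomial (Fin n) k))
    (h : ∀ b, sg (ex p N) a b - b ∈ P) : Fl p N 1 ≤ P := by
  have hp0 := hp.out.pos
  have key : ∀ (e w : ℕ) (u : Fin n → k), p ≤ w + e → 1 ≤ w → ln k n ((N ^ w) u) ∈ P := by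
    intro e
    induction e with
    | zero =>
      intro w u hw _
      rw [pow_zero_of_le hN (show p ≤ w by omega), LinearMap.zero_apply, map_zero]
      exact Ideal.zero_mem _
    | succ e ih =>
      intro w u hw hw1
      obtain ⟨w', rfl⟩ := Nat.exists_eq_succ_of_ne_zero (show w ≠ 0 by omega)
      have h3 := h (ln k n ((N ^ w') u))
      have h4 : (ex p N (ln k n ((N ^ w') u))).natDegree <
          (ex p N (ln k n ((N ^ w') u))).natDegree + 1 + 1 := by omega
      rw [sg_apply, eval_eq_sum_range' h4, Finset.sum_range_succ', Finset.sum_range_succ'] at h3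
      rw [(isAct_ex hN).zero, pow_zero, mul_one, add_sub_cancel_right] at h3
      have h5 : ∑ x ∈ Finset.range (ex p N (ln k n ((N ^ w') u))).natDegree,
          (ex p N (ln k n ((N ^ w') u))).coeff (x + 1 + 1) *
            algebraMap k (MvPolynomial (Fin n) k) a ^ (x + 1 + 1) ∈ P := by
        refine Ideal.sum_mem _ fun x _ => Ideal.mul_mem_right _ _ ?_
        rw [coeff_ex hN, ← Module.End.mul_apply, ← pow_add, ← map_smul]
        exact ih _ _ (by omega) (by omega)
      have h6 := (Ideal.add_mem_iff_right P h5).1 h3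
      rw [zero_add, pow_one, mul_comm] at h6
      have h7 : IsUnit (algebraMap k (MvPolynomial (Fin n) k) a) :=
        (IsUnit.mk0 a ha).map _
      have h8 := (Ideal.unit_mul_mem_iff_mem P h7).1 h6
      rw [coeff_ex hN, Nat.factorial_one, Nat.cast_one, inv_one, one_smul,
        ← Module.End.mul_apply, ← pow_add, add_comm 1 w'] at h8
      exact h8
  exact one_le_of P fun w u hw => key p w u (by omega) hw

include hN in
lemma centre_Fl : RegularWeightedCentre k (Fl p N) where
  zero := Gf_zero _
  anti := Gf_anti _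
  mul := Gf_mul _
  coord P hP hFP := by
    have _ : CharP (MvPolynomial (Fin n) k) p :=
      charP_of_injective_algebraMap (algebraMap k _).injective p
    exact centre_coord tv_ln (one_pow p) hN P hP hFP

/-- The quotients of a vector space by the finite subgroup schemes of the additive group. -/
theorem lin_main (hN : N ^ p = 0) (r : ℕ) (A : AddSubgroup k) [Finite A] :
    IsVariety (X := Spec (CommRingCat.of (frs (ex p N) (p ^ r) ⊓ inv (ex p N) A : Subalgebra k _)))
      (Spec.map (CommRingCat.ofHom (algebraMap k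
        (frs (ex p N) (p ^ r) ⊓ inv (ex p N) A : Subalgebra k _)))) ∧
    HasResolution
      (X := Spec (CommRingCat.of (frs (ex p N) (p ^ r) ⊓ inv (ex p N) A : Subalgebra k _)))
      (Spec.map (CommRingCat.ofHom (algebraMap k
        (frs (ex p N) (p ^ r) ⊓ inv (ex p N) A : Subalgebra k _)))) := by
  have _ : CharP (MvPolynomial (Fin n) k) p :=
    charP_of_injective_algebraMap (algebraMap k _).injective p
  have _ : Algebra.Smooth k (MvPolynomial (Fin n) k) :=
    { formallySmooth := inferInstanceAs (Algebra.FormallySmooth k (MvPolynomial _ k))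
      finitePresentation := inferInstanceAs (Algebra.FinitePresentation k (MvPolynomial _ k)) }
  by_cases hne : Fl p N 1 = ⊥
  · have h1 : ∀ b j, 0 < j → (ex p N b).coeff j = 0 := by
      intro b j hj
      have h2 := isFilt_Fl.anti _ _ (show 1 ≤ j by omega) (coeff_mem_Fl hN b j)
      rwa [hne, Ideal.mem_bot] at h2
    have h2 : frs (ex p N) (p ^ r) ⊓ inv (ex p N) A = ⊤ := by
      rw [eq_top_iff]
      intro b _
      refine ⟨fun j hj _ => h1 b j hj, fun a _ => ?_⟩
      have h3 : ex p N b = C b := by
        ext j : 1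
        rw [coeff_C]
        split_ifs with h4
        · rw [h4, (isAct_ex hN).zero]
        · exact h1 b j (Nat.pos_of_ne_zero h4)
      rw [sg_apply, h3, eval_C]
    rw [h2]
    have h3 : Algebra.FiniteType k (⊤ : Subalgebra k (MvPolynomial (Fin n) k)) :=
      Algebra.FiniteType.equiv inferInstance (Subalgebra.topEquiv (R := k)).symm
    exact ⟨isVariety_spec, hasResolution_congr
      (Subalgebra.topEquiv (R := k) (A := MvPolynomial (Fin n) k)).symm hasResolution_of_smooth⟩
  · have hG := good_of_centre isFilt_Fl (centre_Fl hN)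
    obtain ⟨h1, h2⟩ := good_main p (isAct_ex hN) isFilt_Fl (l := 1) (div_Fl hN) (lead_Fl hN)
      one_pos hG hne r A (fun _ P _ hP => fix_Fl hN P hP)
      (fun a _ ha P _ hP => fixA_Fl hN a ha P hP)
    exact concl isFilt_Fl h1 h2

end

end lin

end Pool.Agent.Y177.Ga
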