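import Pool.Agent.Y177.Ga.Alg

/-! Actions of the additive group. -/

set_option autoImplicit false

universe u

namespace Pool.Agent.Y177.Ga

open Polynomial

section act

variable {k B : Type*} [Field k] [CommRing B] [Algebra k B]

/-- The axioms of an action of the additive group, in terms of the coefficients of the coaction. -/
structure IsAct (ρ : B →ₐ[k] B[X]) : Prop where
  zero : ∀ b, (ρ b).coeff 0 = b
  iter : ∀ i j b, (ρ ((ρ b).coeff j)).coeff i = (i + j).choose i • (ρ b).coeff (i + j)

/-- The automorphism given by an element of the additive group. -/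
noncomputable def sg (ρ : B →ₐ[k] B[X]) (a : k) : B →ₐ[k] B :=
  ((Polynomial.aeval (algebraMap k B a) : B[X] →ₐ[B] B).restrictScalars k).comp ρ

lemma sg_apply (ρ : B →ₐ[k] B[X]) (a : k) (b : B) :
    sg ρ a b = (ρ b).eval (algebraMap k B a) := by
  change Polynomial.aeval (algebraMap k B a) (ρ b) = _
  rw [Polynomial.coe_aeval_eq_eval]

variable {ρ : B →ₐ[k] B[X]} (h : IsAct ρ)

include h in
lemma sg_zero (b : B) : sg ρ 0 b = b := by
  rw [sg_apply, map_zero, ← coeff_zero_eq_eval_zero, h.zero]

include h in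
lemma sg_add (a b : k) (x : B) : sg ρ a (sg ρ b x) = sg ρ (a + b) x := by
  obtain ⟨N, hN⟩ : ∃ N, (ρ x).natDegree < N := ⟨_, Nat.lt_succ_self _⟩
  have h1 : ∀ c : k, sg ρ c x = ∑ j ∈ Finset.range N, c ^ j • (ρ x).coeff j := by
    intro c
    rw [sg_apply, eval_eq_sum_range' hN]
    refine Finset.sum_congr rfl fun j _ => ?_
    rw [Algebra.smul_def, map_pow, mul_comm]
  have h2 : ∀ j, (ρ ((ρ x).coeff j)).natDegree < N := by
    intro j
    by_contra hcon
    have h6 : (ρ ((ρ x).coeff j)).leadingCoeff = 0 := by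
      unfold leadingCoeff
      rw [h.iter]
      have h7 : (ρ x).coeff ((ρ ((ρ x).coeff j)).natDegree + j) = 0 :=
        coeff_eq_zero_of_natDegree_lt (by omega)
      rw [h7, smul_zero]
    rw [leadingCoeff_eq_zero] at h6
    rw [h6, natDegree_zero] at hcon
    omega
  have h3 : sg ρ a (sg ρ b x) = ∑ j ∈ Finset.range N, ∑ i ∈ Finset.range N,
      (a ^ i * b ^ j) • ((i + j).choose i • (ρ x).coeff (i + j)) := by
    rw [h1 b, map_sum]
    refine Finset.sum_congr rfl fun j _ => ?_
    rw [map_smul, sg_apply, eval_eq_sum_range' (h2 j), Finset.smul_sum]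
    refine Finset.sum_congr rfl fun i _ => ?_
    rw [h.iter, ← map_pow, mul_comm, ← Algebra.smul_def, smul_smul, mul_comm (b ^ j)]
  rw [h3, h1 (a + b)]
  have h4 : ∀ n, (a + b) ^ n • (ρ x).coeff n = ∑ m ∈ Finset.range (n + 1),
      (a ^ m * b ^ (n - m)) • ((n.choose m : ℕ) • (ρ x).coeff n) := by
    intro n
    rw [add_pow, Finset.sum_smul]
    refine Finset.sum_congr rfl fun m _ => ?_
    rw [← Nat.cast_smul_eq_nsmul k, smul_smul]
  have h5 : ∑ n ∈ Finset.range N, (a + b) ^ n • (ρ x).coeff n =
      ∑ n ∈ Finset.range N, ∑ m ∈ Finset.range (n + 1),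
        (fun m j => (a ^ m * b ^ j) • (((m + j).choose m : ℕ) • (ρ x).coeff (m + j))) m (n - m) := by
    refine Finset.sum_congr rfl fun n _ => ?_
    rw [h4]
    refine Finset.sum_congr rfl fun m hm => ?_
    have : m + (n - m) = n := by
      have := Finset.mem_range.1 hm
      omega
    simp only [this]
  rw [h5, Finset.sum_range_diag_flip N (fun m j => (a ^ m * b ^ j) •
    (((m + j).choose m : ℕ) • (ρ x).coeff (m + j))), Finset.sum_comm]
  refine Finset.sum_congr rfl fun m hm => ?_
  symm
  refine Finset.sum_subset ?_ ?_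
  · intro j hj
    rw [Finset.mem_range] at hj ⊢
    omega
  · intro j _ hj
    rw [Finset.mem_range] at hj
    have hm' := Finset.mem_range.1 hm
    rw [coeff_eq_zero_of_natDegree_lt (show (ρ x).natDegree < m + j by omega), smul_zero,
      smul_zero]

end act

section ofD

variable {k B : Type*} [Field k] [CommRing B] [Algebra k B] (D : ℕ → B →ₗ[k] B)

/-- The axioms of a locally finite higher derivation. -/
structure IsHD : Prop where
  zero : ∀ b, D 0 b = b
  one : ∀ n, 0 < n → D n 1 = 0
  mul : ∀ n a b, D n (a * b) = ∑ x ∈ Finset.HasAntidiagonal.antidiagonal n, D x.1 a * D x.2 b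
  fin : ∀ b, ∃ N, ∀ n, N ≤ n → D n b = 0
  iter : ∀ i j b, D i (D j b) = (i + j).choose i • D (i + j) b

variable {D}

/-- The polynomial of a locally finite higher derivation. -/
noncomputable def pl (hD : IsHD D) (b : B) : B[X] :=
  ∑ n ∈ Finset.range (hD.fin b).choose, monomial n (D n b)

lemma coeff_pl (hD : IsHD D) (b : B) (n : ℕ) : (pl hD b).coeff n = D n b := by
  unfold pl
  rw [finsetSum_coeff]
  simp only [coeff_monomial]
  rw [Finset.sum_ite_eq' (Finset.range _) n]
  split_ifs with h
  · rfl
  · rw [Finset.mem_range, not_lt] at h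
    exact ((hD.fin b).choose_spec n h).symm

/-- The coaction of a locally finite higher derivation. -/
noncomputable def rh (hD : IsHD D) : B →ₐ[k] B[X] where
  toFun := pl hD
  map_one' := by
    ext n
    rw [coeff_pl, coeff_one]
    split_ifs with h
    · rw [h, hD.zero]
    · exact hD.one n (Nat.pos_of_ne_zero h)
  map_mul' := by
    intro a b
    ext n
    rw [coeff_pl, hD.mul, coeff_mul]
    refine Finset.sum_congr rfl fun x _ => ?_
    rw [coeff_pl, coeff_pl]
  map_zero' := by
    ext n
    rw [coeff_pl, map_zero, coeff_zero]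
  map_add' := by
    intro a b
    ext n
    rw [coeff_pl, coeff_add, coeff_pl, coeff_pl, map_add]
  commutes' := by
    intro c
    ext n
    rw [coeff_pl, Algebra.algebraMap_eq_smul_one, map_smul, Polynomial.algebraMap_apply,
      coeff_C]
    split_ifs with h
    · rw [h, hD.zero, Algebra.algebraMap_eq_smul_one]
    · rw [hD.one n (Nat.pos_of_ne_zero h), smul_zero]

lemma coeff_rh (hD : IsHD D) (b : B) (n : ℕ) : (rh hD b).coeff n = D n b := coeff_pl hD b n

lemma isAct_rh (hD : IsHD D) : IsAct (rh hD) where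
  zero := fun b => by rw [coeff_rh, hD.zero]
  iter := fun i j b => by simp only [coeff_rh, hD.iter]

end ofD

end Pool.Agent.Y177.Ga
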