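import Mathlib

/-! Products over finite groups and inertia. -/

set_option autoImplicit false

universe u

namespace Pool.Agent.Y177.Ga

open Polynomial

section nr

variable {S κ : Type*} [CommRing S] [AddCommGroup κ] (σ : κ → S →+* S)
  (T : AddSubgroup κ) [Fintype T]

/-- The product of the `X + σ b f`. -/
noncomputable def nr (f : S) : S[X] := ∏ b : T, (X + C (σ (b : κ) f))

variable (hadd : ∀ a b x, σ a (σ b x) = σ (a + b) x)

lemma map_nr' (f : S) (h : ∀ a b, σ a (σ b f) = σ (a + b) f) (a : κ) : (nr σ T f).map (σ a) =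
    ∏ b : T, (X + C (σ (a + b) f)) := by
  unfold nr
  rw [Polynomial.map_prod]
  refine Finset.prod_congr rfl fun b _ => ?_
  rw [Polynomial.map_add, map_X, map_C, h]

include hadd in
lemma map_nr (f : S) (c : κ) (hc : c ∈ T) : (nr σ T f).map (σ c) = nr σ T f := by
  rw [map_nr' σ T f (fun a b => hadd a b f)]
  exact Equiv.prod_comp (Equiv.addLeft (⟨c, hc⟩ : T)) (fun b : T => (X + C (σ (b : κ) f) : S[X]))

include hadd in
lemma nr_coeff_fixed (f : S) (c : κ) (hc : c ∈ T) (j : ℕ) :
    σ c ((nr σ T f).coeff j) = (nr σ T f).coeff j := by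
  have h := congrArg (fun P : S[X] => P.coeff j) (map_nr σ T hadd f c hc)
  simpa [coeff_map] using h

lemma nr_natDegree_le (f : S) : (nr σ T f).natDegree ≤ Fintype.card T := by
  unfold nr
  refine (natDegree_prod_le _ _).trans ?_
  have h1 : ∀ b : T, (X + C (σ (b : κ) f) : S[X]).natDegree ≤ 1 := fun b =>
    (natDegree_add_le _ _).trans (max_le natDegree_X_le (by simp))
  refine (Finset.sum_le_sum fun b _ => h1 b).trans ?_
  simp

include hadd in
lemma nr_identity (h0 : ∀ x, σ 0 x = x) (f : S) (a : κ) :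
    ∏ b : T, (σ (a + b) f - f) = ∑ j ∈ Finset.range (Fintype.card T + 1),
      (σ a ((nr σ T f).coeff j) - (nr σ T f).coeff j) * (-f) ^ j := by
  have h1 : ((nr σ T f).map (σ a) - nr σ T f).eval (-f) = ∏ b : T, (σ (a + b) f - f) := by
    rw [eval_sub, map_nr' σ T f (fun a b => hadd a b f), eval_prod]
    have h2 : (nr σ T f).eval (-f) = 0 := by
      unfold nr
      rw [eval_prod]
      refine Finset.prod_eq_zero (Finset.mem_univ (0 : T)) ?_
      simp [h0]
    rw [h2, sub_zero]
    refine Finset.prod_congr rfl fun b _ => ?_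
    simp only [eval_add, eval_X, eval_C]
    ring
  rw [← h1, eval_eq_sum_range' (n := Fintype.card T + 1)]
  · refine Finset.sum_congr rfl fun j _ => ?_
    rw [coeff_sub, coeff_map]
  · refine Nat.lt_succ_of_le ?_
    refine (natDegree_sub_le _ _).trans (max_le ?_ (nr_natDegree_le σ T f))
    exact natDegree_map_le.trans (nr_natDegree_le σ T f)

end nr

section inertia

variable {S κ : Type*} [CommRing S] [AddCommGroup κ] (σ : κ → S →+* S)
  (T : AddSubgroup κ) [Fintype T] (hadd : ∀ a b x, σ a (σ b x) = σ (a + b) x)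
  (h0 : ∀ x, σ 0 x = x)

include hadd h0 in
/-- Inertia: if `σ a` acts trivially modulo the prime ideal `P` on the invariants of `T` then some
`σ (a + b)`, `b` in `T`, acts trivially modulo `P`. -/
theorem inertia (P : Ideal S) (hP : P.IsPrime) (a : κ)
    (h : ∀ c, (∀ b ∈ T, σ b c = c) → σ a c - c ∈ P) :
    ∃ b ∈ T, ∀ t, σ (a + b) t - t ∈ P := by
  classical
  by_contra hcon
  push Not at hcon
  choose t ht using fun b : T => hcon b b.2
  let e : T ≃ Fin (Fintype.card T) := Fintype.equivFin T
  let f : S[X] := ∑ b : T, C (t b) * X ^ ((e b : Fin _) : ℕ)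
  have hf : ∀ b : T, f.coeff (e b : Fin _) = t b := by
    intro b
    simp only [f, finsetSum_coeff, coeff_C_mul, coeff_X_pow]
    rw [Finset.sum_eq_single b]
    · simp
    · intro b' _ hb'
      have h1 : ¬ ((e b : Fin _) : ℕ) = (e b' : Fin _) := by
        intro h2
        exact hb' (e.injective (Fin.ext h2.symm))
      simp [h1]
    · simp
  let σ' : κ → S[X] →+* S[X] := fun a => Polynomial.mapRingHom (σ a)
  have hadd' : ∀ a b x, σ' a (σ' b x) = σ' (a + b) x := by
    intro a b x
    ext n
    simp only [σ', coe_mapRingHom, coeff_map]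
    exact hadd a b _
  have h0' : ∀ x, σ' 0 x = x := by
    intro x
    ext n
    simp only [σ', coe_mapRingHom, coeff_map]
    exact h0 _
  have hPX : (P.map (C : S →+* S[X])).IsPrime := Ideal.isPrime_map_C_of_isPrime
  have h1 : ∏ b : T, (σ' (a + b) f - f) ∈ P.map (C : S →+* S[X]) := by
    rw [nr_identity σ' T hadd' h0']
    refine Ideal.sum_mem _ fun j _ => Ideal.mul_mem_right _ _ ?_
    rw [Ideal.mem_map_C_iff]
    intro n
    rw [coeff_sub]
    change (((nr σ' T f).coeff j).map (σ a)).coeff n - _ ∈ P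
    rw [coeff_map]
    refine h _ fun b hb => ?_
    have h2 := nr_coeff_fixed σ' T hadd' f b hb j
    have h3 := congrArg (fun Q : S[X] => Q.coeff n) h2
    simpa [σ', coeff_map] using h3
  obtain ⟨b, -, hb⟩ := (Ideal.IsPrime.prod_mem_iff (hp := hPX)).1 h1
  rw [Ideal.mem_map_C_iff] at hb
  have h2 := hb (e b : Fin _)
  rw [coeff_sub, hf] at h2
  change ((f.map (σ (a + b))).coeff (e b : Fin _)) - _ ∈ P at h2
  rw [coeff_map, hf] at h2
  exact ht b h2

end inertia

section weights

variable {C : Type*} [CommRing C] (F : ℕ → Ideal C) (hz : F 0 = ⊤)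
  (ha : ∀ a b, a ≤ b → F b ≤ F a) (hm : ∀ a b, F a * F b ≤ F (a + b))

include hz ha hm in
lemma prod_coeff_mem {ι : Type*} (s : Finset ι) (u : ι → C) (d : ℕ) (hu : ∀ i ∈ s, u i ∈ F d)
    (j : ℕ) : (∏ i ∈ s, (X + Polynomial.C (u i))).coeff j ∈ F (d * (s.card - j)) := by
  classical
  induction s using Finset.induction_on generalizing j with
  | empty =>
    simp only [Finset.prod_empty, Finset.card_empty, Nat.zero_sub, mul_zero, hz]
    trivial
  | insert i s hi ih =>
    rw [Finset.prod_insert hi, Finset.card_insert_of_notMem hi, add_mul]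
    rw [Polynomial.coeff_add, Polynomial.coeff_C_mul]
    refine Ideal.add_mem _ ?_ ?_
    · cases j with
      | zero => rw [Polynomial.coeff_X_mul_zero]; exact Ideal.zero_mem _
      | succ j =>
        rw [Polynomial.coeff_X_mul]
        have h1 := ih (fun i hi => hu i (Finset.mem_insert_of_mem hi)) j
        have h2 : s.card + 1 - (j + 1) = s.card - j := by omega
        rw [h2]
        exact h1
    · have h1 := ih (fun i hi => hu i (Finset.mem_insert_of_mem hi)) j
      have h2 := hm _ _ (Ideal.mul_mem_mul (hu i (Finset.mem_insert_self _ _)) h1)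
      refine ha _ _ ?_ h2
      have h3 : s.card + 1 - j ≤ 1 + (s.card - j) := by omega
      calc d * (s.card + 1 - j) ≤ d * (1 + (s.card - j)) := Nat.mul_le_mul_left _ h3
        _ = d + d * (s.card - j) := by ring

variable {k : Type*} [Field k] [Algebra k C]

include ha in
/-- Division by a linear factor. -/
lemma div_one (d l m : ℕ) (P G : C[X]) (b : C) (hP : ∀ j, P.coeff j ∈ F (d + (j + m) * l))
    (hPG : P = (X - Polynomial.C b) * G) (j : ℕ) : G.coeff j ∈ F (d + (j + (m + 1)) * l) := by
  have key : ∀ n j, G.natDegree + 1 ≤ j + n → G.coeff j ∈ F (d + (j + (m + 1)) * l) := by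
    intro n
    induction n with
    | zero =>
      intro j hj
      rw [coeff_eq_zero_of_natDegree_lt (by omega)]
      exact Ideal.zero_mem _
    | succ n ih =>
      intro j hj
      have h1 : G.coeff j = P.coeff (j + 1) + b * G.coeff (j + 1) := by
        rw [hPG, sub_mul, coeff_sub, coeff_X_mul, coeff_C_mul]
        ring
      rw [h1]
      refine Ideal.add_mem _ ?_ (Ideal.mul_mem_left _ _ ?_)
      · have h2 := hP (j + 1)
        have h3 : d + (j + (m + 1)) * l = d + (j + 1 + m) * l := by ring
        rw [h3]; exact h2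
      · refine ha _ _ ?_ (ih (j + 1) (by omega))
        have : (j + (m + 1)) * l ≤ (j + 1 + (m + 1)) * l := Nat.mul_le_mul_right _ (by omega)
        omega
  exact key (G.natDegree + 1) j (by omega)

include ha in
lemma div_many (d l : ℕ) (s : Finset k) : ∀ (m : ℕ) (P : C[X]),
    (∀ j, P.coeff j ∈ F (d + (j + m) * l)) → (∀ b ∈ s, P.eval (algebraMap k C b) = 0) →
    ∃ G : C[X], P = (∏ b ∈ s, (X - Polynomial.C (algebraMap k C b))) * G ∧
      ∀ j, G.coeff j ∈ F (d + (j + (m + s.card)) * l) := by
  classical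
  induction s using Finset.induction_on with
  | empty => intro m P hP _; exact ⟨P, by simp, by simpa using hP⟩
  | insert b s hb ih =>
    intro m P hP hr
    obtain ⟨G, hG⟩ := dvd_iff_isRoot.2 (hr b (Finset.mem_insert_self _ _))
    have h1 := div_one F ha d l m P G _ hP hG
    have h2 : ∀ b' ∈ s, G.eval (algebraMap k C b') = 0 := by
      intro b' hb'
      have h3 := hr b' (Finset.mem_insert_of_mem hb')
      rw [hG, eval_mul, eval_sub, eval_X, eval_C, ← map_sub] at h3
      have h4 : b' - b ≠ 0 := by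
        intro h5
        rw [sub_eq_zero] at h5
        subst h5
        exact hb hb'
      have h5 : IsUnit (algebraMap k C (b' - b)) := (IsUnit.mk0 _ h4).map _
      exact (h5.mul_right_eq_zero).1 h3
    obtain ⟨G', hG', h6⟩ := ih (m + 1) G h1 h2
    refine ⟨G', ?_, ?_⟩
    · rw [Finset.prod_insert hb, mul_assoc, ← hG', ← hG]
    · intro j
      rw [Finset.card_insert_of_notMem hb]
      have h7 := h6 j
      have h8 : m + (s.card + 1) = m + 1 + s.card := by ring
      rw [h8]
      exact h7

include ha in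
/-- The values of a weighted polynomial which vanishes on a finite set. -/
lemma eval_mem (d l : ℕ) (s : Finset k) (P : C[X]) (hP : ∀ j, P.coeff j ∈ F (d + j * l))
    (hr : ∀ b ∈ s, P.eval (algebraMap k C b) = 0) (a : k) :
    P.eval (algebraMap k C a) ∈ F (d + s.card * l) := by
  obtain ⟨G, hG, h1⟩ := div_many F ha d l s 0 P (by simpa using hP) hr
  rw [hG, eval_mul]
  refine Ideal.mul_mem_left _ _ ?_
  rw [eval_eq_sum_range]
  refine Ideal.sum_mem _ fun j _ => Ideal.mul_mem_right _ _ ?_
  refine ha _ _ ?_ (h1 j)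
  have : s.card * l ≤ (j + (0 + s.card)) * l := Nat.mul_le_mul_right _ (by omega)
  omega

end weights

end Pool.Agent.Y177.Ga
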