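import Pool.Agent.H519R3.RS.Centre
import Pool.Agent.Y177.Ga.Act

/-! The step for automorphisms of order `p`, with a condition on the prime ideals of the Rees
algebra. -/

set_option autoImplicit false
set_option linter.unusedSectionVars false

open AlgebraicGeometry CategoryTheory Pool.Agent.H920R2 Pool.Agent.H519R3.RS

universe u v

namespace Pool.Agent.Y177.Ga

section sgood

variable {k C C' L : Type u} [Field k] [CommRing C] [IsDomain C] [Algebra k C] [CommRing C']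
  [Algebra k C'] [Field L] [Algebra k L]

lemma hD_of (g : C →ₐ[k] L) (σ : C ≃ₐ[k] C) (τ : L ≃ₐ[k] L) (hτ : ∀ b, τ (g b) = g (σ b))
    {F : ℕ → Ideal C} (hF : IsFilt F) {l : ℕ} (hdiv : ∀ d, ∀ a ∈ F d, σ a - a ∈ F (d + l)) :
    ∀ f ∈ rG g hF, hm l 1 * (tl τ f - f) ∈ rG g hF := by
  have hDgen : ∀ (d : ℤ) (b : C), hm (l : ℤ) 1 * (tl τ (hm d (g b)) - hm d (g b)) =
      hm (d + l) (g (σ b - b)) := by
    intro d b
    rw [tl_hm, hτ, ← hm_sub, hm_mul, one_mul, ← map_sub, add_comm]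
  have hDF : ∀ (d : ℤ) (b : C), b ∈ F d.toNat → σ b - b ∈ F (d + l).toNat := by
    intro d b hb
    exact hF.anti _ _ (by omega) (hdiv _ b hb)
  intro f hf
  have h1 : hm (l : ℤ) 1 * (tl τ f - f) = ∑ d ∈ f.coeff.support,
      hm (l : ℤ) 1 * (tl τ (hm d (f.coeff d)) - hm d (f.coeff d)) := by
    rw [← Finset.mul_sum, Finset.sum_sub_distrib, ← map_sum, ← eq_sum_hm f]
  rw [h1]
  refine Subalgebra.sum_mem _ fun d _ => ?_
  obtain ⟨b, hb, hb'⟩ := hf d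
  rw [← hb', hDgen]
  exact hm_mem_rG g hF (hDF d b hb)

/-- The step for automorphisms. -/
theorem good_fixE {p : ℕ} (hp : p.Prime) (hpk : (p : k) = 0) (σ : C ≃ₐ[k] C)
    (hσ : ∀ b, σ^[p] b = b)
    {F : ℕ → Ideal C} (hF : IsFilt F) (hG : Good k hF) {l : ℕ} (hl : 0 < l)
    (hdiv : ∀ d, ∀ a ∈ F d, σ a - a ∈ F (d + l))
    (g : C →ₐ[k] L) (hinj : Function.Injective g) (τ : L ≃ₐ[k] L)
    (hτ : ∀ b, τ (g b) = g (σ b)) (hτp : ∀ x, τ^[p] x = x)
    (hrad : ∀ Q : Ideal (rG g hF), Q.IsPrime →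
      (∀ (e : ℤ) (c : C), c ∈ F e.toNat → ∀ h : hm (e + l) (g (σ c - c)) ∈ rG g hF,
        (⟨hm (e + l) (g (σ c - c)), h⟩ : rG g hF) ∈ Q) →
      ∀ (d : ℕ) (a : L) (h : hm d a ∈ rG g hF), 0 < d → (⟨hm d a, h⟩ : rG g hF) ∈ Q)
    (j : C' →ₐ[k] C) (hj : Function.Injective j) (hjr : ∀ c, σ c = c ↔ ∃ c', j c' = c)
    {F' : ℕ → Ideal C'} (hF' : IsFilt F') (hFF' : ∀ d c', c' ∈ F' d ↔ j c' ∈ F d) :
    Good k hF' := by
  classical
  have hGE := (good_iff g hF hinj).1 hG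
  let R := rG g hF
  have hDgen : ∀ (d : ℤ) (b : C), hm (l : ℤ) 1 * (tl τ (hm d (g b)) - hm d (g b)) =
      hm (d + l) (g (σ b - b)) := by
    intro d b
    rw [tl_hm, hτ, ← hm_sub, hm_mul, one_mul, ← map_sub, add_comm]
  have hDF : ∀ (d : ℤ) (b : C), b ∈ F d.toNat → σ b - b ∈ F (d + l).toNat := by
    intro d b hb
    exact hF.anti _ _ (by omega) (hdiv _ b hb)
  have hD : ∀ f ∈ R, hm l 1 * (tl τ f - f) ∈ R := hD_of g σ τ hτ hF hdiv
  have hs : hm (-1) 1 ∈ R := s_rG g hF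
  have hc : ∀ f ∈ R, ∀ d, ∃ b : C, f.coeff d = g b := fun f hf d => by
    obtain ⟨b, -, hb⟩ := hf d; exact ⟨b, hb.symm⟩
  let F0 : Subalgebra k (LP L) := fixedAlg (tl τ)
  have hrad' : ∀ Q : Ideal R, Q.IsPrime → (∀ f : R, TH τ R l hs hD 1 f ∈ Q) →
      ∀ (d : ℕ) (a : L) (h : hm d a ∈ R), 0 < d → (⟨hm d a, h⟩ : R) ∈ Q := by
    intro Q hQ hQT d a h hd
    refine hrad Q hQ ?_ d a h hd
    intro e c hc' hcR
    have h1 := hQT ⟨hm e (g c), hm_mem_rG g hF hc'⟩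
    have h2 : TH τ R l hs hD 1 ⟨hm e (g c), hm_mem_rG g hF hc'⟩ =
        (⟨hm (e + l) (g (σ c - c)), hcR⟩ : R) := by
      apply Subtype.ext
      exact hDgen e c
    rw [h2] at h1
    exact h1
  have hfam : Fam R F0 := by
    intro Q hQ hQS d a hda hd
    refine rad_zp g hinj σ τ hτ hp hpk hσ hτp R (gr_rG g hF) hs (b_rG g hF) hc l hl hD hrad'
      Q hQ ?_ d a hda hd
    rintro ⟨x, hx⟩ ⟨e, η, he0, hη, hxe, hτη, b, hdvd⟩
    have hxe' : x = hm e η := hxe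
    subst hxe'
    refine hQS e η hx he0 hη ?_ ?_
    · change _ ∈ fixedAlg (tl τ)
      rw [mem_fixedAlg, tl_hm, hτη]
    · exact smooth_good_zp hp τ hτp R hs l hD e η hx hη hτη (hGE.sm e η hx he0 hη) b hdvd
  have hpp : ∀ f : LP L, (tl τ)^[p] f = f := by
    intro f
    apply AddMonoidAlgebra.coeff_injective
    ext d
    rw [tl_iter_coeff, hτp]
  have hint : ∀ f ∈ R, IsIntegral ↥(R ⊓ F0) f :=
    int_fixed (tl τ) p hp.pos hpp R fun x hx => tl_mem_of τ R hs l hD hx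
  have hinj' : Function.Injective (g.comp j) := hinj.comp hj
  have hfe : ∀ b : C, σ b = b ↔ τ (g b) = g b := by
    intro b
    rw [hτ]
    exact ⟨fun h => by rw [h], fun h => hinj h⟩
  have heq : rG (g.comp j) hF' = rG g hF ⊓ F0 := by
    apply le_antisymm
    · intro f hf
      have h1 : f ∈ rG g hF := by
        intro d
        obtain ⟨b, hb, hb'⟩ := hf d
        exact ⟨j b, (hFF' _ _).1 hb, hb'⟩
      refine ⟨h1, ?_⟩
      have h2 : f = ∑ d ∈ f.coeff.support, hm d (f.coeff d) := eq_sum_hm f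
      rw [h2]
      refine Subalgebra.sum_mem _ fun d _ => ?_
      obtain ⟨b, hb, hb'⟩ := hf d
      change _ ∈ fixedAlg (tl τ)
      rw [mem_fixedAlg, tl_hm, ← hb']
      change hm d (τ (g (j b))) = hm d (g (j b))
      rw [(hfe (j b)).1 ((hjr (j b)).2 ⟨b, rfl⟩)]
    · rintro f ⟨hf, hf0⟩ d
      obtain ⟨b, hb, hb'⟩ := hf d
      have h1 := gr_fixed τ f hf0 d
      rw [mem_fixedAlg, tl_hm, ← hb'] at h1
      have h2 := (hfe b).2 (hm_inj h1)
      rw [hjr] at h2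
      obtain ⟨c', hc'⟩ := h2
      refine ⟨c', (hFF' _ _).2 (by rw [hc']; exact hb), ?_⟩
      change g (j c') = _
      rw [hc', hb']
  refine (good_iff (g.comp j) hF' hinj').2 (goodE_inf g hF hGE (g.comp j) hF' F0 heq hfam hint
    fun d a h => ?_)
  change _ ∈ fixedAlg (tl τ) at h ⊢
  rw [mem_fixedAlg, tl_hm] at h ⊢
  rw [map_inv₀, hm_inj h]

end sgood

section lead

variable {k C L : Type u} [Field k] [CommRing C] [Algebra k C] [Field L] [Algebra k L]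
  (g : C →ₐ[k] L) {F : ℕ → Ideal C} (hF : IsFilt F)

/-- The zeros of the leading form in the special fibre. -/
theorem lead_special (δ : C → C) (l : ℕ) (hdiv : ∀ d, ∀ a ∈ F d, δ a ∈ F (d + l))
    (hlead : ∀ d, 1 ≤ d → ∀ a ∈ F d, ∃ N : ℕ, a ^ N ∈ leadI δ F l (N * d))
    (Q : Ideal (rG g hF)) (hQ : Q.IsPrime)
    (hDQ : ∀ (e : ℕ) (c : C), c ∈ F e → ∀ h : hm ((e : ℤ) + l) (g (δ c)) ∈ rG g hF,
      (⟨hm ((e : ℤ) + l) (g (δ c)), h⟩ : rG g hF) ∈ Q)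
    (hsQ : (⟨hm (-1) 1, s_rG g hF⟩ : rG g hF) ∈ Q)
    (d : ℕ) (a : L) (h : hm d a ∈ rG g hF) (hd : 0 < d) : (⟨hm d a, h⟩ : rG g hF) ∈ Q := by
  classical
  let R := rG g hF
  have hDF : ∀ (d : ℕ) (b : C), b ∈ F d → δ b ∈ F ((d : ℤ) + l).toNat := by
    intro d b hb
    exact hF.anti _ _ (by omega) (hdiv _ b hb)
  have hDQ' : ∀ (e : ℕ) (c : C) (hc : c ∈ F e),
      (⟨hm ((e : ℤ) + l) (g (δ c)), hm_mem_rG g hF (hDF e c hc)⟩ : R) ∈ Q := fun e c hc =>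
    hDQ e c hc _
  obtain ⟨b, hb, hba⟩ := of_hm_mem_rG g hF h
  rw [Int.toNat_natCast] at hb
  subst hba
  let s : R := ⟨hm (-1) 1, s_rG g hF⟩
  obtain ⟨N, hN⟩ := hlead d hd b hb
  -- membership in `Q` of homogeneous elements
  have hadd : ∀ x y : C, (∃ hz : hm ((N * d : ℕ) : ℤ) (g x) ∈ R,
      (⟨hm ((N * d : ℕ) : ℤ) (g x), hz⟩ : R) ∈ Q) →
      (∃ hz : hm ((N * d : ℕ) : ℤ) (g y) ∈ R,
      (⟨hm ((N * d : ℕ) : ℤ) (g y), hz⟩ : R) ∈ Q) →
      ∃ hz : hm ((N * d : ℕ) : ℤ) (g (x + y)) ∈ R,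
      (⟨hm ((N * d : ℕ) : ℤ) (g (x + y)), hz⟩ : R) ∈ Q := by
    rintro x y ⟨a1, a2⟩ ⟨b1, b2⟩
    have h3 : hm ((N * d : ℕ) : ℤ) (g (x + y)) =
        hm ((N * d : ℕ) : ℤ) (g x) + hm ((N * d : ℕ) : ℤ) (g y) := by
      rw [map_add, hm_add]
    refine ⟨by rw [h3]; exact R.add_mem a1 b1, ?_⟩
    have h4 : (⟨hm ((N * d : ℕ) : ℤ) (g (x + y)), by
        rw [h3]; exact R.add_mem a1 b1⟩ : R) = ⟨_, a1⟩ + ⟨_, b1⟩ := Subtype.ext h3
    rw [h4]
    exact Q.add_mem a2 b2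
  have key : ∀ z ∈ leadI δ F l (N * d),
      ∃ hz : hm ((N * d : ℕ) : ℤ) (g z) ∈ R, (⟨hm ((N * d : ℕ) : ℤ) (g z), hz⟩ : R) ∈ Q := by
    intro z hz
    obtain ⟨z1, hz1, z2, hz2, rfl⟩ := Submodule.mem_sup.1 hz
    refine hadd _ _ ?_ ?_
    · have h2 : hm ((N * d : ℕ) : ℤ) (g z1) =
          hm (-1) 1 * hm ((N * d + 1 : ℕ) : ℤ) (g z1) := by
        rw [hm_mul, one_mul]
        push_cast
        congr 1
        ring
      have h3 : hm ((N * d + 1 : ℕ) : ℤ) (g z1) ∈ R :=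
        hm_mem_rG g hF (by rw [Int.toNat_natCast]; exact hz1)
      have h4 : hm ((N * d : ℕ) : ℤ) (g z1) ∈ R := by
        rw [h2]; exact R.mul_mem (s_rG g hF) h3
      refine ⟨h4, ?_⟩
      have h5 : (⟨hm ((N * d : ℕ) : ℤ) (g z1), h4⟩ : R) = s * ⟨_, h3⟩ := Subtype.ext h2
      rw [h5]
      exact Q.mul_mem_right _ hsQ
    · clear hz
      induction hz2 using Submodule.span_induction with
      | mem z hz =>
        obtain ⟨e, c, hc, b', hb', rfl⟩ := hz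
        have h2 : hm ((N * d : ℕ) : ℤ) (g (b' * (δ c))) =
            hm (((N * d : ℕ) : ℤ) - (e + l)) (g b') * hm ((e : ℤ) + l) (g (δ c)) := by
          rw [hm_mul, map_mul]
          congr 1
          ring
        have h3 : hm (((N * d : ℕ) : ℤ) - (e + l)) (g b') ∈ R := by
          refine hm_mem_rG g hF ?_
          have e1 : (((N * d : ℕ) : ℤ) - (e + l)).toNat = N * d - (e + l) := by omega
          rw [e1]
          exact hb'
        have h4 := hDQ' e c hc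
        refine ⟨by rw [h2]; exact R.mul_mem h3 (hm_mem_rG g hF (hDF e c hc)), ?_⟩
        have h5 : (⟨hm ((N * d : ℕ) : ℤ) (g (b' * (δ c))), by
            rw [h2]; exact R.mul_mem h3 (hm_mem_rG g hF (hDF e c hc))⟩ : R) =
            ⟨_, h3⟩ * ⟨hm ((e : ℤ) + l) (g (δ c)),
              hm_mem_rG g hF (hDF e c hc)⟩ := Subtype.ext h2
        rw [h5]
        exact Q.mul_mem_left _ h4
      | zero =>
        have h2 : hm ((N * d : ℕ) : ℤ) (g 0) = 0 := by rw [map_zero, hm_zero]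
        refine ⟨by rw [h2]; exact R.zero_mem, ?_⟩
        have h3 : (⟨hm ((N * d : ℕ) : ℤ) (g 0), by rw [h2]; exact R.zero_mem⟩ : R) = 0 :=
          Subtype.ext h2
        rw [h3]
        exact Q.zero_mem
      | add y z _ _ hy hz => exact hadd _ _ hy hz
      | smul r z _ hz =>
        obtain ⟨hz1, hz2⟩ := hz
        have h2 : hm ((N * d : ℕ) : ℤ) (g (r • z)) =
            hm 0 (g r) * hm ((N * d : ℕ) : ℤ) (g z) := by
          rw [smul_eq_mul, map_mul, hm_mul, zero_add]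
        refine ⟨by rw [h2]; exact R.mul_mem (b_rG g hF r) hz1, ?_⟩
        have h3 : (⟨hm ((N * d : ℕ) : ℤ) (g (r • z)), by
            rw [h2]; exact R.mul_mem (b_rG g hF r) hz1⟩ : R) =
            ⟨_, b_rG g hF r⟩ * ⟨_, hz1⟩ := Subtype.ext h2
        rw [h3]
        exact Q.mul_mem_left _ hz2
  obtain ⟨h1, h2⟩ := key _ hN
  have h3 : (⟨hm d (g b), h⟩ : R) ^ N = ⟨_, h1⟩ := by
    apply Subtype.ext
    change hm (d : ℤ) (g b) ^ N = hm ((N * d : ℕ) : ℤ) (g (b ^ N))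
    rw [hm_pow, map_pow]
    push_cast
    rfl
  rw [← h3] at h2
  exact hQ.mem_of_pow_mem _ h2

end lead

end Pool.Agent.Y177.Ga
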