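import Pool.Agent.Y177.Ga.Step

/-! Quotients by Frobenius kernels of the additive group. -/

set_option autoImplicit false
set_option linter.unusedSectionVars false

open Polynomial Pool.Agent.H920R2 Pool.Agent.H519R3.RS

universe u v

namespace Pool.Agent.Y177.Ga

section lucas

lemma lucas_pow (p : ℕ) [Fact p.Prime] : ∀ (r n m a : ℕ), a < p ^ r →
    (p ^ r * n + a).choose (p ^ r * m) ≡ n.choose m [MOD p] := by
  have hp := (Fact.out : p.Prime).pos
  intro r
  induction r with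
  | zero =>
    intro n m a ha
    have : a = 0 := by simpa using ha
    subst this
    simp only [pow_zero, one_mul, add_zero]
    exact Nat.ModEq.refl _
  | succ r ih =>
    intro n m a ha
    have h1 := Choose.choose_modEq_choose_mod_mul_choose_div_nat (p := p)
      (n := p ^ (r + 1) * n + a) (k := p ^ (r + 1) * m)
    have h2 : (p ^ (r + 1) * m) % p = 0 := by
      rw [pow_succ', mul_assoc]
      exact Nat.mul_mod_right _ _
    have h3 : (p ^ (r + 1) * m) / p = p ^ r * m := by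
      rw [pow_succ', mul_assoc]
      exact Nat.mul_div_cancel_left _ hp
    have h4 : (p ^ (r + 1) * n + a) / p = p ^ r * n + a / p := by
      rw [pow_succ', mul_assoc]
      exact Nat.mul_add_div hp _ _
    rw [h2, h3, h4, Nat.choose_zero_right, one_mul] at h1
    refine h1.trans (ih n m (a / p) ?_)
    rw [Nat.div_lt_iff_lt_mul hp]
    rwa [pow_succ] at ha

end lucas

lemma nsmul_congr' (k : Type u) {B : Type u} [Field k] [CommRing B] [Algebra k B] (p : ℕ)
    [CharP k p] {m n : ℕ} (h : m ≡ n [MOD p]) (x : B) : m • x = n • x := by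
  rw [← Nat.cast_smul_eq_nsmul k, ← Nat.cast_smul_eq_nsmul k,
    CharP.natCast_eq_natCast' k p h]

section frob

variable {k B : Type u} [Field k] [CommRing B] [Algebra k B] {ρ : B →ₐ[k] B[X]}

/-- The invariants of the kernel of a power of Frobenius. -/
noncomputable def frs (ρ : B →ₐ[k] B[X]) (q : ℕ) : Subalgebra k B where
  carrier := {b | ∀ j, 0 < j → j < q → (ρ b).coeff j = 0}
  mul_mem' := by
    intro x y hx hy j hj hjq
    rw [map_mul, coeff_mul]
    refine Finset.sum_eq_zero fun z hz => ?_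
    rw [Finset.HasAntidiagonal.mem_antidiagonal] at hz
    rcases Nat.eq_zero_or_pos z.1 with h | h
    · rw [hy z.2 (by omega) (by omega), mul_zero]
    · rw [hx z.1 h (by omega), zero_mul]
  add_mem' := by
    intro x y hx hy j hj hjq
    rw [map_add, coeff_add, hx j hj hjq, hy j hj hjq, add_zero]
  algebraMap_mem' := by
    intro c j hj _
    rw [AlgHom.commutes, Polynomial.algebraMap_apply, coeff_C, if_neg (by omega)]

lemma mem_frs {q : ℕ} {b : B} : b ∈ frs ρ q ↔ ∀ j, 0 < j → j < q → (ρ b).coeff j = 0 := Iff.rfl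

variable (p : ℕ) [hp : Fact p.Prime] [CharP k p] (hρ : IsAct ρ)


include hp hρ in
lemma coeff_frs (r : ℕ) {x : B} (hx : x ∈ frs ρ (p ^ r)) (j : ℕ) (hj : ¬ p ^ r ∣ j) :
    (ρ x).coeff j = 0 := by
  have hq : 0 < p ^ r := pow_pos hp.out.pos r
  have h1 : 0 < j % p ^ r := Nat.pos_of_ne_zero fun h => hj (Nat.dvd_of_mod_eq_zero h)
  have h2 := hρ.iter (p ^ r * (j / p ^ r)) (j % p ^ r) x
  rw [hx _ h1 (Nat.mod_lt _ hq), map_zero, coeff_zero, Nat.div_add_mod,
    nsmul_congr' k p (n := 1)] at h2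
  · rw [one_smul] at h2
    exact h2.symm
  · have h3 := lucas_pow p r (j / p ^ r) (j / p ^ r) (j % p ^ r) (Nat.mod_lt _ hq)
    rw [Nat.div_add_mod, Nat.choose_self] at h3
    exact h3

include hp hρ in
lemma iter_frs (r : ℕ) (i j : ℕ) (x : B) :
    (ρ ((ρ x).coeff (j * p ^ r))).coeff (i * p ^ r) =
      (i + j).choose i • (ρ x).coeff ((i + j) * p ^ r) := by
  rw [hρ.iter, ← add_mul]
  refine nsmul_congr' k p ?_ _
  have h1 := lucas_pow p r (i + j) i 0 (pow_pos hp.out.pos r)
  rw [add_zero, mul_comm, mul_comm (p ^ r)] at h1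
  exact h1

include hp hρ in
lemma coeff_mem_frs (r : ℕ) {x : B} (hx : x ∈ frs ρ (p ^ r)) (n : ℕ) :
    (ρ x).coeff (n * p ^ r) ∈ frs ρ (p ^ r) := by
  intro j hj hjq
  rw [hρ.iter, coeff_frs p hρ r hx, smul_zero]
  intro h
  have h1 : p ^ r ∣ j := (Nat.dvd_add_left (Dvd.intro_left n rfl)).1 h
  exact absurd (Nat.le_of_dvd hj h1) (by omega)

include hp hρ in
lemma expand_frs (r : ℕ) {x : B} (hx : x ∈ frs ρ (p ^ r)) :
    expand B (p ^ r) (contract (p ^ r) (ρ x)) = ρ x := by
  have hq : 0 < p ^ r := pow_pos hp.out.pos r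
  ext j
  rw [coeff_expand hq]
  split_ifs with h
  · rw [coeff_contract hq.ne', Nat.div_mul_cancel h]
  · exact (coeff_frs p hρ r hx j h).symm

include hp hρ in
lemma mul_frs (r : ℕ) {x y : B} (hx : x ∈ frs ρ (p ^ r)) (hy : y ∈ frs ρ (p ^ r)) (n : ℕ) :
    (ρ (x * y)).coeff (n * p ^ r) = ∑ z ∈ Finset.HasAntidiagonal.antidiagonal n,
      (ρ x).coeff (z.1 * p ^ r) * (ρ y).coeff (z.2 * p ^ r) := by
  have hq : 0 < p ^ r := pow_pos hp.out.pos r
  rw [map_mul, ← expand_frs p hρ r hx, ← expand_frs p hρ r hy, ← map_mul, coeff_expand_mul hq,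
    coeff_mul]
  refine Finset.sum_congr rfl fun z _ => ?_
  rw [coeff_expand_mul hq, coeff_expand_mul hq]

/-- The higher derivation induced on the invariants. -/
noncomputable def DR (hρ : IsAct ρ) (r n : ℕ) : frs ρ (p ^ r) →ₗ[k] frs ρ (p ^ r) where
  toFun x := ⟨(ρ x).coeff (n * p ^ r), coeff_mem_frs p hρ r x.2 n⟩
  map_add' x y := by
    apply Subtype.ext
    change (ρ ((x : B) + y)).coeff _ = _
    rw [map_add, coeff_add]
    rfl
  map_smul' c x := by
    apply Subtype.ext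
    change (ρ (c • (x : B))).coeff _ = _
    rw [map_smul, coeff_smul]
    rfl

lemma coe_DR (r n : ℕ) (x : frs ρ (p ^ r)) :
    ((DR p hρ r n x : frs ρ (p ^ r)) : B) = (ρ (x : B)).coeff (n * p ^ r) := rfl

lemma isHD_DR (r : ℕ) : IsHD (DR p hρ r) where
  zero b := by
    apply Subtype.ext
    rw [coe_DR, zero_mul, hρ.zero]
  one n hn := by
    apply Subtype.ext
    rw [coe_DR]
    change (ρ 1).coeff _ = 0
    rw [map_one, coeff_one, if_neg]
    have := pow_pos hp.out.pos r
    exact (Nat.mul_pos hn this).ne'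
  mul n a b := by
    apply Subtype.ext
    rw [coe_DR]
    change (ρ ((a : B) * b)).coeff _ = _
    rw [mul_frs p hρ r a.2 b.2, AddSubmonoidClass.coe_finsetSum]
    rfl
  fin b := by
    refine ⟨(ρ (b : B)).natDegree + 1, fun n hn => ?_⟩
    apply Subtype.ext
    rw [coe_DR]
    refine coeff_eq_zero_of_natDegree_lt ?_
    have := pow_pos hp.out.pos r
    have h1 : n * 1 ≤ n * p ^ r := Nat.mul_le_mul_left _ this
    omega
  iter i j b := by
    apply Subtype.ext
    rw [coe_DR, coe_DR, iter_frs p hρ r]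
    rfl

/-- The action induced on the invariants of a Frobenius kernel. -/
noncomputable def rr (hρ : IsAct ρ) (r : ℕ) : frs ρ (p ^ r) →ₐ[k] (frs ρ (p ^ r))[X] :=
  rh (isHD_DR p hρ r)

lemma isAct_rr (r : ℕ) : IsAct (rr p hρ r) := isAct_rh _

lemma coeff_rr (r : ℕ) (x : frs ρ (p ^ r)) (n : ℕ) :
    (((rr p hρ r x).coeff n : frs ρ (p ^ r)) : B) = (ρ (x : B)).coeff (n * p ^ r) := by
  unfold rr
  rw [coeff_rh]
  rfl

lemma sg_rr (r : ℕ) (x : frs ρ (p ^ r)) (a : k) :
    ((sg (rr p hρ r) (a ^ p ^ r) x : frs ρ (p ^ r)) : B) = sg ρ a x := by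
  have hq : 0 < p ^ r := pow_pos hp.out.pos r
  have h1 : (rr p hρ r x).map ((frs ρ (p ^ r)).val : frs ρ (p ^ r) →+* B) =
      contract (p ^ r) (ρ (x : B)) := by
    ext n
    rw [coeff_map, coeff_contract hq.ne']
    exact coeff_rr p hρ r x n
  rw [sg_apply, sg_apply, ← expand_frs p hρ r x.2, expand_eval, ← h1, ← map_pow]
  have h2 := Polynomial.eval₂_at_apply ((frs ρ (p ^ r)).val : frs ρ (p ^ r) →+* B)
    (p := rr p hρ r x) (algebraMap k (frs ρ (p ^ r)) (a ^ p ^ r))
  rw [eval₂_eq_eval_map] at h2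
  exact h2.symm

section fr

variable [CharP B p]

include hp in
lemma coeff_pow_q (r : ℕ) (b : B) (j : ℕ) : (ρ (b ^ p ^ r)).coeff (j * p ^ r) =
    ((ρ b).coeff j) ^ p ^ r := by
  have hq : 0 < p ^ r := pow_pos hp.out.pos r
  rw [map_pow, ← map_iterateFrobenius_expand p (ρ b) r, coeff_map, coeff_expand_mul hq,
    iterateFrobenius_def]

include hp in
lemma pow_q_mem (r : ℕ) (b : B) : b ^ p ^ r ∈ frs ρ (p ^ r) := by
  intro j hj hjq
  have hq : 0 < p ^ r := pow_pos hp.out.pos r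
  rw [map_pow, ← map_iterateFrobenius_expand p (ρ b) r, coeff_map, coeff_expand hq, if_neg,
    map_zero]
  intro h
  exact absurd (Nat.le_of_dvd hj h) (by omega)

/-- The power of Frobenius, as a map to the invariants. -/
noncomputable def fq (ρ : B →ₐ[k] B[X]) (r : ℕ) : B →+* frs ρ (p ^ r) :=
  (iterateFrobenius B p r).codRestrict (frs ρ (p ^ r)) fun b => by
    rw [iterateFrobenius_def]
    exact pow_q_mem p r b

lemma coe_fq (r : ℕ) (b : B) : ((fq p ρ r b : frs ρ (p ^ r)) : B) = b ^ p ^ r := by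
  change iterateFrobenius B p r b = _
  rw [iterateFrobenius_def]

lemma DR_fq (r n : ℕ) (b : B) : DR p hρ r n (fq p ρ r b) = fq p ρ r ((ρ b).coeff n) := by
  apply Subtype.ext
  rw [coe_DR, coe_fq, coe_fq, coeff_pow_q]

lemma sg_fq (r : ℕ) (a : k) (b : B) : sg (rr p hρ r) (a ^ p ^ r) (fq p ρ r b) =
    fq p ρ r (sg ρ a b) := by
  apply Subtype.ext
  rw [sg_rr, coe_fq, coe_fq, map_pow]

end fr

end frob

end Pool.Agent.Y177.Ga
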