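import Pool.Agent.Y177.Ga.Frob

/-! Quotients by finite subgroup schemes of the additive group. -/

set_option autoImplicit false
set_option linter.unusedSectionVars false

open Polynomial Pool.Agent.H920R2 Pool.Agent.H519R3.RS

universe u v

namespace Pool.Agent.Y177.Ga

section hd

variable {k B : Type u} [Field k] [CommRing B] [Algebra k B] {D : ℕ → B →ₗ[k] B}

lemma hd_iterate (hD : IsHD D) (n : ℕ) (b : B) : (D 1)^[n] b = n.factorial • D n b := by
  induction n with
  | zero => rw [Function.iterate_zero, id, Nat.factorial_zero, one_smul, hD.zero]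
  | succ n ih =>
    rw [Function.iterate_succ_apply', ih, map_nsmul, hD.iter, smul_smul, add_comm 1 n,
      Nat.choose_one_right, Nat.factorial_succ, mul_comm]

lemma hd_leibniz (hD : IsHD D) (a b : B) : D 1 (a * b) = a • D 1 b + b • D 1 a := by
  have h1 : (Finset.HasAntidiagonal.antidiagonal 1 : Finset (ℕ × ℕ)) = {(0, 1), (1, 0)} := rfl
  rw [hD.mul, h1, Finset.sum_pair (by simp)]
  simp only [hD.zero, smul_eq_mul]
  ring

end hd

section frob

variable {k B : Type u} [Field k] [CommRing B] [Algebra k B] {ρ : B →ₐ[k] B[X]}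
  (p : ℕ) [hp : Fact p.Prime] [CharP k p] [CharP B p] (hρ : IsAct ρ)
  {F : ℕ → Ideal B} (hF : IsFilt F) {l : ℕ}
  (hdiv : ∀ d, ∀ b ∈ F d, ∀ j, (ρ b).coeff j ∈ F (d + j * l))
  (hlead : ∀ d, 1 ≤ d → ∀ a ∈ F d, ∃ N : ℕ, a ^ N ∈ leadI (fun c => (ρ c).coeff 1) F l (N * d))

include hF in
lemma pow_mem_F (n d : ℕ) (b : B) (hb : b ∈ F d) : b ^ n ∈ F (d * n) := by
  induction n with
  | zero => rw [mul_zero, hF.zero]; trivial
  | succ n ih =>
    rw [pow_succ, Nat.mul_succ]
    exact hF.mul _ _ (Ideal.mul_mem_mul ih hb)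

include hF in
lemma fq_mem (r d : ℕ) (b : B) (hb : b ∈ F d) :
    fq p ρ r b ∈ restr F (frs ρ (p ^ r)) (d * p ^ r) := by
  rw [mem_restr, coe_fq]
  exact pow_mem_F hF _ _ _ hb

include hlead hF in
lemma lead_frob (r d : ℕ) (hd : 1 ≤ d) (x : frs ρ (p ^ r)) (hx : x ∈ restr F (frs ρ (p ^ r)) d) :
    ∃ N : ℕ, x ^ N ∈ leadI (fun c => DR p hρ r 1 c) (restr F (frs ρ (p ^ r))) (l * p ^ r)
      (N * d) := by
  have hq : 0 < p ^ r := pow_pos hp.out.pos r
  have hFr := isFilt_restr hF (frs ρ (p ^ r))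
  obtain ⟨N, hN⟩ := hlead d hd x hx
  have key : ∀ z ∈ leadI (fun c => (ρ c).coeff 1) F l (N * d), fq p ρ r z ∈
      leadI (fun c => DR p hρ r 1 c) (restr F (frs ρ (p ^ r))) (l * p ^ r) (N * p ^ r * d) := by
    intro z hz
    obtain ⟨z1, hz1, z2, hz2, rfl⟩ := Submodule.mem_sup.1 hz
    rw [map_add]
    refine Ideal.add_mem _ ?_ ?_
    · refine (le_sup_left : _ ≤ leadI _ _ _ _) ?_
      refine hFr.anti _ _ ?_ (fq_mem p hF r _ z1 hz1)
      have h1 : (N * d + 1) * p ^ r = N * p ^ r * d + p ^ r := by ring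
      rw [h1]
      omega
    · refine (le_sup_right : _ ≤ leadI _ _ _ _) ?_
      clear hz
      induction hz2 using Submodule.span_induction with
      | mem z hz =>
        obtain ⟨e, c, hc, b', hb', rfl⟩ := hz
        refine Ideal.subset_span ⟨e * p ^ r, fq p ρ r c, fq_mem p hF r _ c hc, fq p ρ r b', ?_, ?_⟩
        · have h1 : N * p ^ r * d - (e * p ^ r + l * p ^ r) = (N * d - (e + l)) * p ^ r := by
            rw [Nat.sub_mul, Nat.add_mul]
            congr 1
            ring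
          rw [h1]
          exact fq_mem p hF r _ b' hb'
        · rw [map_mul, DR_fq]
      | zero => rw [map_zero]; exact Ideal.zero_mem _
      | add y z _ _ hy hz => rw [map_add]; exact Ideal.add_mem _ hy hz
      | smul r' z _ hz =>
        rw [smul_eq_mul, map_mul]
        exact Ideal.mul_mem_left _ _ hz
  refine ⟨N * p ^ r, ?_⟩
  have h1 := key _ hN
  have h2 : fq p ρ r ((x : B) ^ N) = x ^ (N * p ^ r) := by
    apply Subtype.ext
    rw [coe_fq]
    push_cast
    rw [← pow_mul]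
  rw [h2] at h1
  exact h1

lemma fix_frob {r : ℕ} (P : Ideal (frs ρ (p ^ r))) (hP : P.IsPrime)
    (h : F 1 ≤ P.comap (fq p ρ r)) : restr F (frs ρ (p ^ r)) 1 ≤ P := by
  intro x hx
  have h1 : fq p ρ r (x : B) ∈ P := h hx
  have h2 : fq p ρ r (x : B) = x ^ p ^ r := by
    apply Subtype.ext
    rw [coe_fq]
    push_cast
    rfl
  rw [h2] at h1
  exact hP.mem_of_pow_mem _ h1

variable [IsDomain B]

include hp hρ hF hdiv hlead in
/-- Quotients by Frobenius kernels. -/
theorem good_frob (hG : Good k hF) (hne : F 1 ≠ ⊥) (r : ℕ)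
    (hfix : r ≠ 0 → ∀ P : Ideal B, P.IsPrime → (∀ b, (ρ b).coeff 1 ∈ P) → F 1 ≤ P) :
    Good k (isFilt_restr hF (frs ρ (p ^ r))) ∧ restr F (frs ρ (p ^ r)) 1 ≠ ⊥ := by
  have hpk : (p : k) = 0 := CharP.cast_eq_zero k p
  induction r with
  | zero =>
    refine good_top hF hG hne ?_
    rw [eq_top_iff]
    intro x _ j hj hj1
    rw [pow_zero] at hj1
    omega
  | succ r ih =>
    have hfix' := hfix (Nat.succ_ne_zero r)
    obtain ⟨h1, h2⟩ := ih fun _ => hfix'
    have hHD := isHD_DR p hρ r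
    refine good_dstep hp.out hpk hF (C := frs ρ (p ^ r)) (C' := frs ρ (p ^ (r + 1))) ?_ h1 h2
    refine ⟨Derivation.mk' (DR p hρ r 1) (hd_leibniz hHD), 0, l * p ^ r, ?_, ?_, ?_, ?_, ?_⟩
    · intro b
      have h3 : (Derivation.mk' (DR p hρ r 1) (hd_leibniz hHD))^[p] b = 0 := by
        change (DR p hρ r 1)^[p] b = 0
        rw [hd_iterate hHD, ← Nat.cast_smul_eq_nsmul k]
        have h4 : ((p.factorial : ℕ) : k) = 0 := by
          rw [CharP.cast_eq_zero_iff k p]
          exact Nat.dvd_factorial hp.out.pos le_rfl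
        rw [h4, zero_smul]
      rw [h3, map_zero, zero_mul]
    · intro d a ha
      change DR p hρ r 1 a ∈ _
      rw [mem_restr, coe_DR]
      have h3 := hdiv d a ha (1 * p ^ r)
      have h4 : d + 1 * p ^ r * l = d + l * p ^ r := by ring
      rwa [h4] at h3
    · intro P hP hPa
      refine fix_frob p P hP ?_
      refine hfix' _ (hP.comap _) fun b => ?_
      rw [Ideal.mem_comap, ← DR_fq p hρ]
      exact hPa _
    · intro d hd a ha
      exact lead_frob p hρ hF hlead r d hd a ha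
    · intro b
      constructor
      · intro hb
        have h3 : b ∈ frs ρ (p ^ r) := fun j hj hjq => hb j hj
          (hjq.trans_le (Nat.pow_le_pow_right hp.out.pos (Nat.le_succ r)))
        refine ⟨h3, ?_⟩
        change DR p hρ r 1 ⟨b, h3⟩ = 0
        apply Subtype.ext
        rw [coe_DR, one_mul]
        exact hb _ (pow_pos hp.out.pos r) (Nat.pow_lt_pow_right hp.out.one_lt (Nat.lt_succ_self r))
      · rintro ⟨hb, hb0⟩ j hj hjq
        change DR p hρ r 1 ⟨b, hb⟩ = 0 at hb0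
        by_cases hdvd : p ^ r ∣ j
        · obtain ⟨m, rfl⟩ := hdvd
          have hm0 : 0 < m := Nat.pos_of_ne_zero fun h => by
            rw [h, mul_zero] at hj; omega
          have hmp : m < p := by
            rw [pow_succ] at hjq
            exact Nat.lt_of_mul_lt_mul_left hjq
          have h3 := hHD.iter (m - 1) 1 ⟨b, hb⟩
          rw [hb0, map_zero, Nat.sub_add_cancel hm0] at h3
          have h4 : m.choose (m - 1) = m := by
            have h5 := Nat.choose_symm_of_eq_add (n := m) (a := m - 1) (b := 1) (by omega)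
            rw [h5, Nat.choose_one_right]
          rw [h4, ← Nat.cast_smul_eq_nsmul k] at h3
          have h5 : (m : k) ≠ 0 := by
            rw [Ne, CharP.cast_eq_zero_iff k p]
            intro h
            exact absurd (Nat.le_of_dvd hm0 h) (by omega)
          have h6 := (smul_eq_zero.1 h3.symm).resolve_left h5
          have h7 := congrArg (fun y : frs ρ (p ^ r) => (y : B)) h6
          change (ρ b).coeff (m * p ^ r) = 0 at h7
          rwa [mul_comm] at h7
        · exact coeff_frs p hρ r hb j hdvd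

include hp hρ hF hdiv hlead in
/-- Quotients by the finite subgroup schemes. -/
theorem good_main (hl : 0 < l) (hG : Good k hF) (hne : F 1 ≠ ⊥) (r : ℕ) (A : AddSubgroup k)
    [Finite A]
    (hfix : r ≠ 0 → ∀ P : Ideal B, P.IsPrime → (∀ b, (ρ b).coeff 1 ∈ P) → F 1 ≤ P)
    (hfixA : ∀ a ∈ A, a ≠ 0 → ∀ P : Ideal B, P.IsPrime → (∀ b, sg ρ a b - b ∈ P) → F 1 ≤ P) :
    Good k (isFilt_restr hF (frs ρ (p ^ r) ⊓ inv ρ A)) ∧
      restr F (frs ρ (p ^ r) ⊓ inv ρ A) 1 ≠ ⊥ := by
  have hpk : (p : k) = 0 := CharP.cast_eq_zero k p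
  have hq : 0 < p ^ r := pow_pos hp.out.pos r
  obtain ⟨h1, h2⟩ := good_frob p hρ hF hdiv hlead hG hne r hfix
  let ρr := rr p hρ r
  let A' : AddSubgroup k := A.map (iterateFrobenius k p r : k →+* k).toAddMonoidHom
  have hA' : ∀ a' : k, a' ∈ A' ↔ ∃ a ∈ A, a ^ p ^ r = a' := by
    intro a'
    rw [AddSubgroup.mem_map]
    exact Iff.rfl
  have hfin : Finite A' := by
    have h3 : (A' : Set k) = (iterateFrobenius k p r) '' (A : Set k) := by
      ext x
      exact Iff.rfl
    have h4 : (A' : Set k).Finite := by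
      rw [h3]
      exact (Set.toFinite (A : Set k)).image _
    exact h4.to_subtype
  have hFr := isFilt_restr hF (frs ρ (p ^ r))
  obtain ⟨h3, h4⟩ := good_inv (ρ := ρr) (isAct_rr p hρ r) hFr (l := l * p ^ r)
    (Nat.mul_pos hl hq)
    (by
      intro d b hb j
      rw [mem_restr, coeff_rr]
      have h3 := hdiv d b hb (j * p ^ r)
      have h4 : d + j * p ^ r * l = d + j * (l * p ^ r) := by ring
      rwa [h4] at h3)
    (by
      intro d hd a ha
      have h3 : (fun c : frs ρ (p ^ r) => (ρr c).coeff 1) = fun c => DR p hρ r 1 c := by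
        funext c
        exact coeff_rh _ _ _
      rw [h3]
      exact lead_frob p hρ hF hlead r d hd a ha)
    hp.out hpk A' h1 h2
    (by
      intro a' ha' ha0 P hP hPa
      obtain ⟨a, ha, rfl⟩ := (hA' a').1 ha'
      refine fix_frob p P hP ?_
      refine hfixA a ha ?_ _ (hP.comap _) fun b => ?_
      · rintro rfl
        exact ha0 (zero_pow hq.ne')
      · rw [Ideal.mem_comap, map_sub, ← sg_fq p hρ]
        exact hPa _)
  -- transport
  have hmem1 : ∀ x : (frs ρ (p ^ r) ⊓ inv ρ A : Subalgebra k B), (x : B) ∈ frs ρ (p ^ r) :=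
    fun x => x.2.1
  let j1 : (frs ρ (p ^ r) ⊓ inv ρ A : Subalgebra k B) →ₐ[k] frs ρ (p ^ r) :=
    Subalgebra.inclusion inf_le_left
  have hj1 : ∀ x, j1 x ∈ inv ρr A' := by
    intro x a' ha'
    obtain ⟨a, ha, rfl⟩ := (hA' a').1 ha'
    apply Subtype.ext
    rw [sg_rr]
    exact x.2.2 a ha
  let j : (frs ρ (p ^ r) ⊓ inv ρ A : Subalgebra k B) →ₐ[k] inv ρr A' := j1.codRestrict _ hj1
  have hcoe : ∀ x, (((j x : inv ρr A') : frs ρ (p ^ r)) : B) = x := fun x => rfl
  have hinj : Function.Injective j := by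
    intro x y hxy
    apply Subtype.ext
    rw [← hcoe x, ← hcoe y, hxy]
  have hsurj : Function.Surjective j := by
    rintro ⟨⟨b, hb⟩, hb'⟩
    refine ⟨⟨b, hb, fun a ha => ?_⟩, rfl⟩
    have h5 := hb' (a ^ p ^ r) ((hA' _).2 ⟨a, ha, rfl⟩)
    have h6 := congrArg (fun y : frs ρ (p ^ r) => (y : B)) h5
    simp only [ρr, sg_rr] at h6
    exact h6
  refine ⟨good_congr (isFilt_restr hFr (inv ρr A')) h3 j hinj hsurj
    (isFilt_restr hF (frs ρ (p ^ r) ⊓ inv ρ A)) fun d c => Iff.rfl, ?_⟩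
  obtain ⟨x, hx, hx0⟩ := Submodule.exists_mem_ne_zero_of_ne_bot h4
  obtain ⟨y, rfl⟩ := hsurj x
  intro hbot
  have h5 : y ∈ restr F (frs ρ (p ^ r) ⊓ inv ρ A) 1 := hx
  rw [hbot, Ideal.mem_bot] at h5
  rw [h5, map_zero] at hx0
  exact hx0 rfl

end frob

end Pool.Agent.Y177.Ga
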