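import Pool.Agent.Y177.Ga.Wt

/-! The radical condition for the action of a finite group of translations. -/

set_option autoImplicit false
set_option linter.unusedSectionVars false

open Polynomial Pool.Agent.H920R2 Pool.Agent.H519R3.RS

universe u v

namespace Pool.Agent.Y177.Ga

section jq

variable {k C L : Type u} [Field k] [CommRing C] [Algebra k C] [Field L] [Algebra k L]
  (g : C →ₐ[k] L) {F : ℕ → Ideal C} (hF : IsFilt F) (Q : Ideal (rG g hF))

/-- The element `x`, in degree `e`, belongs to the ideal `Q` of the Rees algebra. -/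
def JQ (e : ℤ) (x : C) : Prop := ∃ h : hm e (g x) ∈ rG g hF, (⟨hm e (g x), h⟩ : rG g hF) ∈ Q

variable {Q}

lemma JQ.add {e : ℤ} {x y : C} (hx : JQ g hF Q e x) (hy : JQ g hF Q e y) :
    JQ g hF Q e (x + y) := by
  obtain ⟨a1, a2⟩ := hx
  obtain ⟨b1, b2⟩ := hy
  have h3 : hm e (g (x + y)) = hm e (g x) + hm e (g y) := by rw [map_add, hm_add]
  refine ⟨by rw [h3]; exact (rG g hF).add_mem a1 b1, ?_⟩
  have h4 : (⟨hm e (g (x + y)), by rw [h3]; exact (rG g hF).add_mem a1 b1⟩ : rG g hF) =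
    ⟨_, a1⟩ + ⟨_, b1⟩ := Subtype.ext h3
  rw [h4]
  exact Q.add_mem a2 b2

lemma JQ.zero (e : ℤ) : JQ g hF Q e 0 := by
  have h2 : hm e (g 0) = 0 := by rw [map_zero, hm_zero]
  refine ⟨by rw [h2]; exact (rG g hF).zero_mem, ?_⟩
  have h3 : (⟨hm e (g 0), by rw [h2]; exact (rG g hF).zero_mem⟩ : rG g hF) = 0 :=
    Subtype.ext h2
  rw [h3]
  exact Q.zero_mem

lemma JQ.mul {e e' : ℤ} {x y : C} (hx : JQ g hF Q e x) (hy : y ∈ F e'.toNat) :
    JQ g hF Q (e + e') (x * y) := by
  obtain ⟨a1, a2⟩ := hx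
  have h3 : hm (e + e') (g (x * y)) = hm e (g x) * hm e' (g y) := by rw [map_mul, hm_mul]
  have b1 := hm_mem_rG g hF hy
  refine ⟨by rw [h3]; exact (rG g hF).mul_mem a1 b1, ?_⟩
  have h4 : (⟨hm (e + e') (g (x * y)), by rw [h3]; exact (rG g hF).mul_mem a1 b1⟩ : rG g hF) =
    ⟨_, a1⟩ * ⟨_, b1⟩ := Subtype.ext h3
  rw [h4]
  exact Q.mul_mem_right _ a2

lemma JQ.smul {e : ℤ} {x : C} (hx : JQ g hF Q e x) (c : k) : JQ g hF Q e (c • x) := by
  have h1 := JQ.mul g hF hx (e' := 0) (y := algebraMap k C c) (by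
    change _ ∈ F 0
    rw [hF.zero]; trivial)
  rw [add_zero] at h1
  rwa [Algebra.smul_def, mul_comm]

lemma JQ.sum {e : ℤ} {ι : Type*} (s : Finset ι) (x : ι → C) (hx : ∀ i ∈ s, JQ g hF Q e (x i)) :
    JQ g hF Q e (∑ i ∈ s, x i) := by
  classical
  induction s using Finset.induction_on with
  | empty => rw [Finset.sum_empty]; exact JQ.zero g hF e
  | insert i s hi ih =>
    rw [Finset.sum_insert hi]
    exact JQ.add g hF (hx i (Finset.mem_insert_self _ _))
      (ih fun j hj => hx j (Finset.mem_insert_of_mem hj))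

lemma JQ.or (hQ : Q.IsPrime) {e e' : ℤ} {x y : C} (hx : x ∈ F e.toNat) (hy : y ∈ F e'.toNat)
    (h : JQ g hF Q (e + e') (x * y)) : JQ g hF Q e x ∨ JQ g hF Q e' y := by
  obtain ⟨a1, a2⟩ := h
  have h3 : hm (e + e') (g (x * y)) = hm e (g x) * hm e' (g y) := by rw [map_mul, hm_mul]
  have h4 : (⟨hm (e + e') (g (x * y)), a1⟩ : rG g hF) =
    ⟨_, hm_mem_rG g hF hx⟩ * ⟨_, hm_mem_rG g hF hy⟩ := Subtype.ext h3
  rw [h4] at a2
  rcases hQ.mem_or_mem a2 with h5 | h5
  · exact Or.inl ⟨_, h5⟩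
  · exact Or.inr ⟨_, h5⟩

lemma JQ.prod (hQ : Q.IsPrime) {m : ℕ} {ι : Type*} (s : Finset ι) (x : ι → C)
    (hx : ∀ i ∈ s, x i ∈ F m) (h : JQ g hF Q ((s.card * m : ℕ) : ℤ) (∏ i ∈ s, x i)) :
    ∃ i ∈ s, JQ g hF Q (m : ℤ) (x i) := by
  classical
  induction s using Finset.induction_on with
  | empty =>
    exfalso
    obtain ⟨a1, a2⟩ := h
    apply hQ.ne_top
    rw [Ideal.eq_top_iff_one]
    have h3 : (1 : rG g hF) = ⟨_, a1⟩ := by
      apply Subtype.ext
      change (1 : LP L) = hm _ _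
      simp [hm_one]
    rw [h3]
    exact a2
  | insert i s hi ih =>
    rw [Finset.prod_insert hi, Finset.card_insert_of_notMem hi] at h
    have h1 : (((s.card + 1) * m : ℕ) : ℤ) = (m : ℤ) + ((s.card * m : ℕ) : ℤ) := by
      push_cast; ring
    rw [h1] at h
    have hp : ∏ j ∈ s, x j ∈ F (s.card * m) := by
      have : ∀ (t : Finset ι), (∀ j ∈ t, x j ∈ F m) → ∏ j ∈ t, x j ∈ F (t.card * m) := by
        intro t
        induction t using Finset.induction_on with
        | empty =>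
          intro _
          rw [Finset.card_empty, zero_mul, hF.zero]; trivial
        | insert j t hj ih' =>
          intro ht
          rw [Finset.prod_insert hj, Finset.card_insert_of_notMem hj, add_mul, one_mul, add_comm]
          exact hF.mul _ _ (Ideal.mul_mem_mul (ht j (Finset.mem_insert_self _ _))
            (ih' fun i hi => ht i (Finset.mem_insert_of_mem hi)))
      exact this s fun j hj => hx j (Finset.mem_insert_of_mem hj)
    rcases JQ.or g hF hQ (by rw [Int.toNat_natCast]; exact hx i (Finset.mem_insert_self _ _))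
      (by rw [Int.toNat_natCast]; exact hp) h with h2 | h2
    · exact ⟨i, Finset.mem_insert_self _ _, h2⟩
    · obtain ⟨j, hj, h3⟩ := ih (fun j hj => hx j (Finset.mem_insert_of_mem hj)) h2
      exact ⟨j, Finset.mem_insert_of_mem hj, h3⟩

lemma JQ.special (hs : (⟨hm (-1) 1, s_rG g hF⟩ : rG g hF) ∈ Q) {e : ℤ} {x : C}
    (hx : x ∈ F (e + 1).toNat) : JQ g hF Q e x := by
  have h2 : hm e (g x) = hm (-1) 1 * hm (e + 1) (g x) := by
    rw [hm_mul, one_mul]
    congr 1
    ring
  have h3 := hm_mem_rG g hF hx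
  refine ⟨by rw [h2]; exact (rG g hF).mul_mem (s_rG g hF) h3, ?_⟩
  have h5 : (⟨hm e (g x), by rw [h2]; exact (rG g hF).mul_mem (s_rG g hF) h3⟩ : rG g hF) =
    ⟨_, s_rG g hF⟩ * ⟨_, h3⟩ := Subtype.ext h2
  rw [h5]
  exact Q.mul_mem_right _ hs

lemma JQ.down {e : ℤ} {x : C} (n : ℕ) (hx : JQ g hF Q (e + n) x) : JQ g hF Q e x := by
  obtain ⟨a1, a2⟩ := hx
  have h2 : hm e (g x) = hm (-1) 1 ^ n * hm (e + n) (g x) := by
    rw [hm_pow, hm_mul, one_pow, one_mul]
    congr 1
    ring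
  have h3 : hm e (g x) ∈ rG g hF := by
    rw [h2]
    exact (rG g hF).mul_mem ((rG g hF).pow_mem (s_rG g hF) n) a1
  refine ⟨h3, ?_⟩
  have h5 : (⟨hm e (g x), h3⟩ : rG g hF) = ⟨_, s_rG g hF⟩ ^ n * ⟨_, a1⟩ := Subtype.ext h2
  rw [h5]
  exact Q.mul_mem_left _ a2

lemma JQ.up (hQ : Q.IsPrime) (hs : (⟨hm (-1) 1, s_rG g hF⟩ : rG g hF) ∉ Q) {e : ℤ} {x : C}
    (n : ℕ) (hx : JQ g hF Q e x) (hmem : hm (e + n) (g x) ∈ rG g hF) :
    JQ g hF Q (e + n) x := by
  obtain ⟨a1, a2⟩ := hx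
  refine ⟨hmem, ?_⟩
  have h2 : hm e (g x) = hm (-1) 1 ^ n * hm (e + n) (g x) := by
    rw [hm_pow, hm_mul, one_pow, one_mul]
    congr 1
    ring
  have h5 : (⟨hm e (g x), a1⟩ : rG g hF) = ⟨_, s_rG g hF⟩ ^ n * ⟨_, hmem⟩ := Subtype.ext h2
  rw [h5] at a2
  exact (hQ.mem_or_mem a2).resolve_left fun h => hs (hQ.mem_of_pow_mem n h)

end jq

section main

variable {k C L : Type u} [Field k] [CommRing C] [IsDomain C] [Algebra k C] [Field L]
  [Algebra k L] {ρ : C →ₐ[k] C[X]}
  (hρ : IsAct ρ) {F : ℕ → Ideal C} (hF : IsFilt F) {l : ℕ} (hl : 0 < l)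
  (hdiv : ∀ d, ∀ b ∈ F d, ∀ j, (ρ b).coeff j ∈ F (d + j * l))
  (hlead : ∀ d, 1 ≤ d → ∀ a ∈ F d, ∃ N : ℕ, a ^ N ∈ leadI (fun c => (ρ c).coeff 1) F l (N * d))
  (g : C →ₐ[k] L)

include hρ hF hdiv hlead hl in
/-- The radical condition for prime ideals of the Rees algebra. -/
theorem rad_main (T : AddSubgroup k) [Fintype T] (a : k) (ha : ∀ b ∈ T, a + b ≠ 0)
    (hfix : ∀ b ∈ T, ∀ P : Ideal C, P.IsPrime → (∀ c, sg ρ (a + b) c - c ∈ P) → F 1 ≤ P)
    (Q : Ideal (rG g hF)) (hQ : Q.IsPrime)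
    (hQT : ∀ (e : ℕ) (c : C), c ∈ F e → c ∈ inv ρ T →
      JQ g hF Q ((e : ℤ) + (Fintype.card T * l : ℕ)) (sg ρ a c - c))
    (d : ℕ) (x : L) (h : hm d x ∈ rG g hF) (hd : 0 < d) : (⟨hm d x, h⟩ : rG g hF) ∈ Q := by
  classical
  let σ : k → C →+* C := fun a => (sg ρ a : C →+* C)
  have hadd : ∀ a b x, σ a (σ b x) = σ (a + b) x := fun a b x => sg_add hρ a b x
  have h0 : ∀ x, σ 0 x = x := fun x => sg_zero hρ x
  by_cases hs : (⟨hm (-1) 1, s_rG g hF⟩ : rG g hF) ∈ Q
  · refine lead_special g hF (fun c => (ρ c).coeff 1) l ?_ hlead Q hQ ?_ hs d x h hd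
    · intro e c hc
      have := hdiv e c hc 1
      rwa [one_mul] at this
    · intro e t ht hmem
      -- the product
      have h1 : JQ g hF Q ((Fintype.card T * (e + l) : ℕ) : ℤ)
          (∏ b : T, (sg ρ (a + b) t - t)) := by
        have h2 := nr_identity σ T hadd h0 t a
        change ∏ b : T, (sg ρ (a + b) t - t) = _ at h2
        rw [h2]
        refine JQ.sum g hF _ _ fun j hj => ?_
        have hj' : j ≤ Fintype.card T := by
          have := Finset.mem_range.1 hj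
          omega
        have h3 : (nr σ T t).coeff j ∈ F (e * (Fintype.card T - j)) := by
          have h4 := prod_coeff_mem F hF.zero hF.anti hF.mul (Finset.univ : Finset T)
            (fun b => sg ρ (b : k) t) e (fun b _ => sg_mem hF hdiv b e t ht) j
          rw [Finset.card_univ] at h4
          exact h4
        have h4 := hQT _ _ h3 fun b hb => nr_coeff_fixed σ T hadd t b hb j
        have h5 : (-t) ^ j ∈ F ((e * j : ℕ) : ℤ).toNat := by
          rw [Int.toNat_natCast]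
          have h6 : ∀ n : ℕ, (-t) ^ n ∈ F (e * n) := by
            intro n
            induction n with
            | zero => rw [mul_zero, hF.zero]; trivial
            | succ n ih =>
              rw [pow_succ, Nat.mul_succ]
              exact hF.mul _ _ (Ideal.mul_mem_mul ih ((F e).neg_mem ht))
          exact h6 j
        have h6 := JQ.mul g hF h4 h5
        have h7 : (((e * (Fintype.card T - j) : ℕ) : ℤ) + ((Fintype.card T * l : ℕ) : ℤ)) +
            ((e * j : ℕ) : ℤ) = ((Fintype.card T * (e + l) : ℕ) : ℤ) := by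
          obtain ⟨m, hm⟩ := Nat.exists_eq_add_of_le hj'
          rw [hm, Nat.add_sub_cancel_left]
          push_cast
          ring
        rw [h7] at h6
        exact h6
      rw [← Finset.card_univ] at h1
      obtain ⟨b, -, h2⟩ := JQ.prod g hF hQ (Finset.univ : Finset T)
        (fun b => sg ρ (a + b) t - t) (fun b _ => sg_sub_mem' hρ hF hdiv _ e t ht) h1
      have h3 : JQ g hF Q ((e + l : ℕ) : ℤ)
          (-(sg ρ (a + b) t - t - (a + b : k) • (ρ t).coeff 1)) := by
        refine JQ.special g hF hs ?_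
        have h4 := sg_sub_sub_mem hρ hF hdiv (a + b) e t ht
        refine hF.anti _ _ ?_ ((F _).neg_mem h4)
        have : (((e + l : ℕ) : ℤ) + 1).toNat = e + l + 1 := by omega
        rw [this]
        omega
      have h4 := JQ.add g hF h2 h3
      have h5 : sg ρ (a + b) t - t + -(sg ρ (a + b) t - t - (a + b : k) • (ρ t).coeff 1) =
          (a + b : k) • (ρ t).coeff 1 := by ring
      rw [h5] at h4
      have h6 := JQ.smul g hF h4 (a + b : k)⁻¹
      rw [smul_smul, inv_mul_cancel₀ (ha b b.2), one_smul] at h6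
      obtain ⟨h7, h8⟩ := h6
      have h9 : ((e + l : ℕ) : ℤ) = (e : ℤ) + l := by push_cast; ring
      simp only [h9] at h8
      exact h8
  · -- the general fibre
    let ib : C →+* rG g hF :=
      { toFun := fun b => ⟨hm 0 (g b), b_rG g hF b⟩
        map_one' := Subtype.ext (by change hm 0 (g 1) = 1; rw [map_one, hm_one])
        map_mul' := fun a b => Subtype.ext (by
          change hm 0 (g (a * b)) = hm 0 (g a) * hm 0 (g b)
          rw [map_mul, hm_mul, add_zero])
        map_zero' := Subtype.ext (by change hm 0 (g 0) = 0; rw [map_zero, hm_zero])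
        map_add' := fun a b => Subtype.ext (by
          change hm 0 (g (a + b)) = hm 0 (g a) + hm 0 (g b)
          rw [map_add, hm_add]) }
    have hib : ∀ c, JQ g hF Q 0 c → c ∈ Q.comap ib := by
      rintro c ⟨h1, h2⟩
      exact h2
    have hP : (Q.comap ib).IsPrime := hQ.comap _
    obtain ⟨b, hb, h1⟩ := inertia σ T hadd h0 (Q.comap ib) hP a (by
      intro c hc
      apply hib
      have h2 := hQT 0 c (by rw [hF.zero]; trivial) hc
      refine JQ.down g hF (Fintype.card T * l) ?_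
      rw [Nat.cast_zero] at h2
      exact h2)
    have h2 := hfix b hb (Q.comap ib) hP h1
    obtain ⟨y, hy, hyx⟩ := of_hm_mem_rG g hF h
    rw [Int.toNat_natCast] at hy
    subst hyx
    have h3 : y ∈ Q.comap ib := h2 (hF.anti 1 d hd hy)
    have h4 : JQ g hF Q 0 y := ⟨_, h3⟩
    obtain ⟨h5, h6⟩ := JQ.up g hF hQ hs d h4 (by rw [zero_add]; exact h)
    simp only [zero_add] at h6
    exact h6

end main

end Pool.Agent.Y177.Ga
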