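import Pool.Agent.Y177.Ga.Rad

/-! Quotients by finite groups of translations. -/

set_option autoImplicit false
set_option linter.unusedSectionVars false

open Polynomial Pool.Agent.H920R2 Pool.Agent.H519R3.RS

universe u v

namespace Pool.Agent.Y177.Ga

section main

variable {k C : Type u} [Field k] [CommRing C] [IsDomain C] [Algebra k C] {ρ : C →ₐ[k] C[X]}
  (hρ : IsAct ρ) {F : ℕ → Ideal C} (hF : IsFilt F) {l : ℕ} (hl : 0 < l)
  (hdiv : ∀ d, ∀ b ∈ F d, ∀ j, (ρ b).coeff j ∈ F (d + j * l))
  (hlead : ∀ d, 1 ≤ d → ∀ a ∈ F d, ∃ N : ℕ, a ^ N ∈ leadI (fun c => (ρ c).coeff 1) F l (N * d))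
  {p : ℕ} (hp : p.Prime) (hpk : (p : k) = 0)

include hρ hF hdiv hlead hl hp hpk in
/-- One step. -/
theorem good_step (T : AddSubgroup k) [Fintype T] (a : k) (ha : a ∉ T)
    (hfix : ∀ b ∈ T, ∀ P : Ideal C, P.IsPrime → (∀ c, sg ρ (a + b) c - c ∈ P) → F 1 ≤ P)
    (hG : Good k (isFilt_restr hF (inv ρ T))) (T' : AddSubgroup k)
    (hT' : ∀ x, x ∈ inv ρ T' ↔ x ∈ inv ρ T ∧ sg ρ a x = x) :
    Good k (isFilt_restr hF (inv ρ T')) := by
  classical
  let L := FractionRing C
  let g : C →ₐ[k] L := IsScalarTower.toAlgHom k C L
  have hinj : Function.Injective g := IsFractionRing.injective C L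
  let gT : inv ρ T →ₐ[k] L := g.comp (inv ρ T).val
  have hinjT : Function.Injective gT := hinj.comp Subtype.val_injective
  let τ : L ≃ₐ[k] L := ta L hρ a
  have hτ : ∀ b : C, τ (g b) = g (sg ρ a b) := fun b => ta_map hρ a b
  have hpa : p • a = 0 := by rw [nsmul_eq_mul, hpk, zero_mul]
  have hcard : 0 < Fintype.card T := Fintype.card_pos
  have hle : inv ρ T' ≤ inv ρ T := fun x hx => ((hT' x).1 hx).1
  have hFT := isFilt_restr hF (inv ρ T)
  -- the Rees algebras
  let R := rG g hF
  let R' := rG gT hFT
  have hRR : R' ≤ R := by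
    intro f hf d
    obtain ⟨b, hb, hb'⟩ := hf d
    exact ⟨b, hb, hb'⟩
  have hint : ∀ f ∈ R, IsIntegral R' f := by
    intro f hf
    refine int_group (fun b => (tl (ta L hρ b) : LP L →+* LP L)) T ?_ ?_ R R' ?_ ?_ f hf
    · intro b c x
      apply AddMonoidAlgebra.coeff_injective
      ext d
      change (tl (ta L hρ b) (tl (ta L hρ c) x)).coeff d = (tl (ta L hρ (b + c)) x).coeff d
      rw [tl_coeff, tl_coeff, tl_coeff, ta_add]
    · intro x
      apply AddMonoidAlgebra.coeff_injective
      ext d
      change (tl (ta L hρ 0) x).coeff d = x.coeff d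
      rw [tl_coeff, ta_zero]
    · intro b _ x hx d
      obtain ⟨c, hc, hc'⟩ := hx d
      refine ⟨sg ρ b c, sg_mem hF hdiv b _ c hc, ?_⟩
      change _ = (tl (ta L hρ b) x).coeff d
      rw [tl_coeff, ← hc']
      exact (ta_map hρ b c).symm
    · intro x hx hxT d
      obtain ⟨c, hc, hc'⟩ := hx d
      have hcT : c ∈ inv ρ T := by
        intro b hb
        apply hinj
        have h1 : (tl (ta L hρ b) x).coeff d = x.coeff d :=
          congrArg (fun y : LP L => y.coeff d) (hxT b hb)
        rw [tl_coeff, ← hc'] at h1
        exact (ta_map hρ b c).symm.trans h1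
      exact ⟨⟨c, hcT⟩, hc, hc'⟩
  refine good_fixE hp hpk (sgT hρ T a) ?_ hFT hG (l := Fintype.card T * l)
    (Nat.mul_pos hcard hl) ?_ gT hinjT τ ?_ ?_ ?_ (Subalgebra.inclusion hle)
    (Subalgebra.inclusion_injective hle) ?_ (isFilt_restr hF (inv ρ T')) (fun d c' => Iff.rfl)
  · -- order `p`
    intro b
    have h1 : ∀ (n : ℕ) (x : inv ρ T), (((sgT hρ T a)^[n] x : inv ρ T) : C) =
        (sg ρ a)^[n] (x : C) := by
      intro n
      induction n with
      | zero => intro x; rfl
      | succ n ih =>
        intro x
        rw [Function.iterate_succ_apply, ih, Function.iterate_succ_apply, coe_sgT]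
    apply Subtype.ext
    rw [h1, sg_iter hρ, hpa, sg_zero hρ]
  · intro d b hb
    exact sg_sub_mem hρ hF hdiv T a d b hb b.2
  · intro b
    exact hτ b
  · intro x
    change (ta L hρ a)^[p] x = x
    rw [ta_iter, hpa, ta_zero]
  · -- the radical condition
    intro Q' hQ' hQ'T d x h hd
    let _ : Algebra R' R := (Subalgebra.inclusion hRR).toRingHom.toAlgebra
    have hintA : Algebra.IsIntegral R' R := by
      constructor
      rintro ⟨f, hf⟩
      obtain ⟨P, hP, hP0⟩ := hint f hf
      refine ⟨P, hP, ?_⟩
      have h2 : Function.Injective R.val := Subtype.val_injective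
      apply h2
      rw [map_zero, ← AlgHom.coe_toRingHom, Polynomial.hom_eval₂]
      exact hP0
    obtain ⟨Q, -, hQ, hQQ⟩ := Ideal.exists_ideal_over_prime_of_isIntegral Q' (⊥ : Ideal R) (by
      intro y hy
      rw [Ideal.mem_comap, Ideal.mem_bot] at hy
      have h1 : y = 0 := by
        apply Subtype.ext
        have h2 : ((algebraMap R' R y : R) : LP L) = ((0 : R) : LP L) := congrArg Subtype.val hy
        exact h2
      rw [h1]
      exact Q'.zero_mem)
    have hto : ∀ (y : LP L) (hy : y ∈ R') (hy' : y ∈ R), (⟨y, hy⟩ : R') ∈ Q' ↔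
        (⟨y, hy'⟩ : R) ∈ Q := by
      intro y hy hy'
      rw [← hQQ, Ideal.mem_comap]
      rfl
    rw [hto _ h (hRR h)]
    refine rad_main hρ hF hl hdiv hlead g T a ?_ hfix Q hQ ?_ d x (hRR h) hd
    · intro b hb h0
      apply ha
      have : a = -b := eq_neg_of_add_eq_zero_left h0
      rw [this]
      exact T.neg_mem hb
    · intro e c hc hcT
      have h1 : hm ((e : ℤ) + (Fintype.card T * l : ℕ))
          (gT (sgT hρ T a ⟨c, hcT⟩ - ⟨c, hcT⟩)) ∈ R' := by
        refine hm_mem_rG gT hFT ?_
        have h2 : ((e : ℤ) + (Fintype.card T * l : ℕ)).toNat = e + Fintype.card T * l := by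
          omega
        rw [h2]
        exact sg_sub_mem hρ hF hdiv T a e c hc hcT
      have h2 := hQ'T e ⟨c, hcT⟩ (by rw [Int.toNat_natCast]; exact hc) h1
      rw [hto _ h1 (hRR h1)] at h2
      exact ⟨hRR h1, h2⟩
  · rintro ⟨b, hb⟩
    constructor
    · intro h
      exact ⟨⟨b, (hT' b).2 ⟨hb, congrArg Subtype.val h⟩⟩, rfl⟩
    · rintro ⟨⟨b', hb'⟩, h⟩
      have h6 : b' = b := congrArg Subtype.val h
      subst h6
      exact Subtype.ext ((hT' b').1 hb').2

include hρ hF hdiv hlead hl hp hpk in
/-- The invariants of a finite group of translations. -/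
theorem good_inv (A : AddSubgroup k) [Finite A] (hG : Good k hF) (hne : F 1 ≠ ⊥)
    (hfix : ∀ b ∈ A, b ≠ 0 → ∀ P : Ideal C, P.IsPrime → (∀ c, sg ρ b c - c ∈ P) → F 1 ≤ P) :
    Good k (isFilt_restr hF (inv ρ A)) ∧ restr F (inv ρ A) 1 ≠ ⊥ := by
  classical
  have _ : Fintype A := Fintype.ofFinite A
  refine ⟨?_, ?_⟩
  · -- induction over finite subsets
    have key : ∀ s : Finset k, (∀ a ∈ s, a ∈ A) →
        Good k (isFilt_restr hF (inv ρ (AddSubgroup.closure (s : Set k)))) := by
      intro s
      induction s using Finset.induction_on with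
      | empty =>
        intro _
        refine (good_top hF hG hne ?_).1
        rw [eq_top_iff]
        intro x _ a ha
        rw [Finset.coe_empty, AddSubgroup.closure_empty, AddSubgroup.mem_bot] at ha
        rw [ha, sg_zero hρ]
      | insert a s has ih =>
        intro hs
        have h1 := ih fun b hb => hs b (Finset.mem_insert_of_mem hb)
        have haA : a ∈ A := hs a (Finset.mem_insert_self _ _)
        have hTA : AddSubgroup.closure (s : Set k) ≤ A := by
          rw [AddSubgroup.closure_le]
          intro b hb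
          exact hs b (Finset.mem_insert_of_mem hb)
        have hmem : ∀ x, x ∈ inv ρ (AddSubgroup.closure ((insert a s : Finset k) : Set k)) ↔
            x ∈ inv ρ (AddSubgroup.closure (s : Set k)) ∧ sg ρ a x = x := by
          intro x
          constructor
          · intro hx
            refine ⟨fun b hb => hx b (AddSubgroup.closure_mono ?_ hb),
              hx a (AddSubgroup.subset_closure (by simp))⟩
            intro c hc
            exact Finset.mem_coe.2 (Finset.mem_insert_of_mem (Finset.mem_coe.1 hc))
          · rintro ⟨h2, h3⟩ b hb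
            induction hb using AddSubgroup.closure_induction with
            | mem b hb =>
              rcases Finset.mem_insert.1 (Finset.mem_coe.1 hb) with rfl | h4
              · exact h3
              · exact h2 b (AddSubgroup.subset_closure h4)
            | zero => rw [sg_zero hρ]
            | add b c _ _ hb hc => rw [← sg_add hρ, hc, hb]
            | neg b _ hb =>
              conv_lhs => rw [← hb]
              rw [sg_add hρ, neg_add_cancel, sg_zero hρ]
        by_cases haT : a ∈ AddSubgroup.closure (s : Set k)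
        · have h2 : inv ρ (AddSubgroup.closure ((insert a s : Finset k) : Set k)) =
              inv ρ (AddSubgroup.closure (s : Set k)) := by
            ext x
            rw [hmem]
            exact ⟨fun h => h.1, fun h => ⟨h, h a haT⟩⟩
          have h3 : ∀ (S S' : Subalgebra k C), S' = S → Good k (isFilt_restr hF S) →
              Good k (isFilt_restr hF S') := by
            rintro S S' rfl h
            exact h
          exact h3 _ _ h2 h1
        · have hfin : Finite (AddSubgroup.closure (s : Set k)) :=
            Finite.Set.subset (A : Set k) hTA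
          have _ : Fintype (AddSubgroup.closure (s : Set k)) := Fintype.ofFinite _
          refine good_step hρ hF hl hdiv hlead hp hpk (AddSubgroup.closure (s : Set k)) a haT
            ?_ h1 _ hmem
          intro b hb
          refine hfix _ (A.add_mem haA (hTA hb)) ?_
          intro h0
          apply haT
          have : a = -b := eq_neg_of_add_eq_zero_left h0
          rw [this]
          exact AddSubgroup.neg_mem _ hb
    have hcl : AddSubgroup.closure (((Finset.univ : Finset A).image (fun a : A => (a : k)) :
        Finset k) : Set k) = A := by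
      have h1 : (((Finset.univ : Finset A).image (fun a : A => (a : k)) : Finset k) : Set k) =
          (A : Set k) := by
        ext x
        simp
      rw [h1, AddSubgroup.closure_eq]
    have h2 := key ((Finset.univ : Finset A).image (fun a : A => (a : k))) (by
      intro a ha
      obtain ⟨b, -, rfl⟩ := Finset.mem_image.1 ha
      exact b.2)
    have h3 : ∀ (S S' : AddSubgroup k), S = S' → Good k (isFilt_restr hF (inv ρ S)) →
        Good k (isFilt_restr hF (inv ρ S')) := by
      rintro S S' rfl h
      exact h
    exact h3 _ _ hcl h2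
  · -- a nonzero invariant element
    obtain ⟨x, hx, hx0⟩ := Submodule.exists_mem_ne_zero_of_ne_bot hne
    let σ : k → C →+* C := fun a => (sg ρ a : C →+* C)
    have hadd : ∀ a b x, σ a (σ b x) = σ (a + b) x := fun a b x => sg_add hρ a b x
    have h1 : (nr σ A x).coeff 0 = ∏ b : A, sg ρ (b : k) x := by
      rw [coeff_zero_eq_eval_zero]
      unfold nr
      rw [eval_prod]
      refine Finset.prod_congr rfl fun b _ => ?_
      simp [σ]
    have h2 : ∏ b : A, sg ρ (b : k) x ∈ inv ρ A := by
      intro a ha
      have h3 := nr_coeff_fixed σ A hadd x a ha 0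
      rw [h1] at h3
      exact h3
    have h3 : ∏ b : A, sg ρ (b : k) x ∈ F 1 := by
      rw [← Finset.mul_prod_erase Finset.univ (fun b : A => sg ρ (b : k) x)
        (Finset.mem_univ (0 : A))]
      refine Ideal.mul_mem_right _ _ ?_
      rw [ZeroMemClass.coe_zero, sg_zero hρ]
      exact hx
    have h4 : ∏ b : A, sg ρ (b : k) x ≠ 0 := by
      rw [Finset.prod_ne_zero_iff]
      intro b _ h5
      apply hx0
      have h6 := congrArg (sg ρ (-(b : k))) h5
      rw [sg_add hρ, neg_add_cancel, sg_zero hρ, map_zero] at h6
      exact h6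
    intro hbot
    have h6 : (⟨∏ b : A, sg ρ (b : k) x, h2⟩ : inv ρ A) ∈ restr F (inv ρ A) 1 := h3
    rw [hbot, Ideal.mem_bot] at h6
    exact h4 (congrArg Subtype.val h6)

end main

end Pool.Agent.Y177.Ga
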