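import Pool.Agent.Y177.Ga.Fix

/-! Actions of the additive group and filtrations. -/

set_option autoImplicit false
set_option linter.unusedSectionVars false

open Polynomial Pool.Agent.H920R2 Pool.Agent.H519R3.RS

universe u v

namespace Pool.Agent.Y177.Ga

section wt

variable {k C : Type u} [Field k] [CommRing C] [Algebra k C] {ρ : C →ₐ[k] C[X]}
  (hρ : IsAct ρ) {F : ℕ → Ideal C} (hF : IsFilt F) {l : ℕ}
  (hdiv : ∀ d, ∀ b ∈ F d, ∀ j, (ρ b).coeff j ∈ F (d + j * l))

/-- The invariants of a group of translations. -/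
noncomputable def inv (ρ : C →ₐ[k] C[X]) (T : AddSubgroup k) : Subalgebra k C where
  carrier := {c | ∀ a ∈ T, sg ρ a c = c}
  mul_mem' := fun hx hy a ha => by rw [map_mul, hx a ha, hy a ha]
  add_mem' := fun hx hy a ha => by rw [map_add, hx a ha, hy a ha]
  algebraMap_mem' := fun c a _ => AlgHom.commutes _ c

lemma mem_inv {T : AddSubgroup k} {c : C} : c ∈ inv ρ T ↔ ∀ a ∈ T, sg ρ a c = c := Iff.rfl

include hF hdiv in
lemma sg_mem (a : k) (d : ℕ) (b : C) (hb : b ∈ F d) : sg ρ a b ∈ F d := by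
  rw [sg_apply, eval_eq_sum_range]
  refine Ideal.sum_mem _ fun j _ => Ideal.mul_mem_right _ _ ?_
  exact hF.anti _ _ (by omega) (hdiv d b hb j)

include hρ hF hdiv in
lemma sg_sub_mem (T : AddSubgroup k) [Fintype T] (a : k) (d : ℕ) (b : C) (hb : b ∈ F d)
    (hT : b ∈ inv ρ T) : sg ρ a b - b ∈ F (d + Fintype.card T * l) := by
  classical
  let s : Finset k := Finset.univ.image (fun t : T => (t : k))
  have hs : s.card = Fintype.card T := by
    rw [Finset.card_image_of_injective _ Subtype.val_injective, Finset.card_univ]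
  have h1 : sg ρ a b - b = (ρ b - Polynomial.C b).eval (algebraMap k C a) := by
    rw [eval_sub, eval_C, sg_apply]
  rw [h1, ← hs]
  refine eval_mem F hF.anti d l s _ ?_ ?_ a
  · intro j
    rw [coeff_sub, coeff_C]
    split_ifs with h
    · rw [h, hρ.zero, sub_self]; exact Ideal.zero_mem _
    · rw [sub_zero]; exact hdiv d b hb j
  · intro c hc
    obtain ⟨t, -, rfl⟩ := Finset.mem_image.1 hc
    rw [eval_sub, eval_C, ← sg_apply, hT t t.2, sub_self]

include hρ hF hdiv in
lemma sg_sub_mem' (a : k) (d : ℕ) (b : C) (hb : b ∈ F d) : sg ρ a b - b ∈ F (d + l) := by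
  have h1 := sg_sub_mem hρ hF hdiv (⊥ : AddSubgroup k) a d b hb (by
    intro c hc
    rw [AddSubgroup.mem_bot] at hc
    rw [hc, sg_zero hρ])
  have h2 : Fintype.card (⊥ : AddSubgroup k) = 1 := Fintype.card_eq_one_iff.2 ⟨0, fun x =>
    Subtype.ext (AddSubgroup.mem_bot.1 x.2)⟩
  rwa [h2, one_mul] at h1

include hρ hF hdiv in
lemma sg_sub_sub_mem (a : k) (d : ℕ) (b : C) (hb : b ∈ F d) :
    sg ρ a b - b - a • (ρ b).coeff 1 ∈ F (d + 2 * l) := by
  have h1 := divX_mul_X_add (ρ b)
  have h2 := divX_mul_X_add (divX (ρ b))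
  have h3 : sg ρ a b = ((divX (divX (ρ b))).eval (algebraMap k C a) * algebraMap k C a +
      (ρ b).coeff 1) * algebraMap k C a + b := by
    rw [sg_apply]
    conv_lhs => rw [← h1, ← h2]
    rw [eval_add, eval_mul, eval_add, eval_mul, eval_X, eval_C, eval_C, hρ.zero, coeff_divX]
  have h4 : sg ρ a b - b - a • (ρ b).coeff 1 =
      (divX (divX (ρ b))).eval (algebraMap k C a) * algebraMap k C a ^ 2 := by
    rw [h3, Algebra.smul_def]
    ring
  rw [h4]
  refine Ideal.mul_mem_right _ _ ?_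
  rw [eval_eq_sum_range]
  refine Ideal.sum_mem _ fun j _ => Ideal.mul_mem_right _ _ ?_
  rw [coeff_divX, coeff_divX]
  refine hF.anti _ _ ?_ (hdiv d b hb (j + 1 + 1))
  have : 2 * l ≤ (j + 1 + 1) * l := Nat.mul_le_mul_right _ (by omega)
  omega

include hρ in
lemma sg_iter (n : ℕ) (a : k) (x : C) : (sg ρ a)^[n] x = sg ρ (n • a) x := by
  induction n generalizing x with
  | zero => rw [Function.iterate_zero, id, zero_smul, sg_zero hρ]
  | succ n ih => rw [Function.iterate_succ_apply, ih, sg_add hρ, succ_nsmul]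

/-- The automorphism given by an element of the additive group. -/
noncomputable def sgE (hρ : IsAct ρ) (a : k) : C ≃ₐ[k] C :=
  AlgEquiv.ofAlgHom (sg ρ a) (sg ρ (-a))
    (AlgHom.ext fun x => by
      rw [AlgHom.comp_apply, sg_add hρ, add_neg_cancel, sg_zero hρ]; rfl)
    (AlgHom.ext fun x => by
      rw [AlgHom.comp_apply, sg_add hρ, neg_add_cancel, sg_zero hρ]; rfl)

lemma sgE_apply (a : k) (x : C) : sgE hρ a x = sg ρ a x := rfl

include hρ in
lemma sg_inv (T : AddSubgroup k) (a : k) (x : C) (hx : x ∈ inv ρ T) : sg ρ a x ∈ inv ρ T := by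
  intro b hb
  rw [sg_add hρ, add_comm, ← sg_add hρ, hx b hb]

/-- The action on the invariants. -/
noncomputable def sgT (hρ : IsAct ρ) (T : AddSubgroup k) (a : k) : inv ρ T ≃ₐ[k] inv ρ T :=
  AlgEquiv.ofAlgHom
    (((sg ρ a).comp (inv ρ T).val).codRestrict (inv ρ T) fun x => sg_inv hρ T a x x.2)
    (((sg ρ (-a)).comp (inv ρ T).val).codRestrict (inv ρ T) fun x => sg_inv hρ T (-a) x x.2)
    (AlgHom.ext fun x => by
      apply Subtype.ext
      change sg ρ a (sg ρ (-a) x) = x
      rw [sg_add hρ, add_neg_cancel, sg_zero hρ])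
    (AlgHom.ext fun x => by
      apply Subtype.ext
      change sg ρ (-a) (sg ρ a x) = x
      rw [sg_add hρ, neg_add_cancel, sg_zero hρ])

lemma coe_sgT (T : AddSubgroup k) (a : k) (x : inv ρ T) :
    ((sgT hρ T a x : inv ρ T) : C) = sg ρ a x := rfl

end wt

section tau

variable {k C L : Type u} [Field k] [CommRing C] [IsDomain C] [Algebra k C] [Field L]
  [Algebra k L] [Algebra C L] [IsScalarTower k C L] [IsFractionRing C L]
  {ρ : C →ₐ[k] C[X]} (hρ : IsAct ρ)

/-- The extension of the action to the field of fractions. -/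
noncomputable def ta (L : Type u) [Field L] [Algebra k L] [Algebra C L] [IsScalarTower k C L]
    [IsFractionRing C L] (hρ : IsAct ρ) (a : k) : L ≃ₐ[k] L :=
  IsFractionRing.fieldEquivOfAlgEquiv k L L (sgE hρ a)

lemma ta_map (a : k) (b : C) : ta L hρ a (algebraMap C L b) = algebraMap C L (sg ρ a b) :=
  IsFractionRing.fieldEquivOfAlgEquiv_algebraMap k L L (sgE hρ a) b

lemma ta_add (a b : k) (x : L) : ta L hρ a (ta L hρ b x) = ta L hρ (a + b) x := by
  obtain ⟨y, z, -, rfl⟩ := IsFractionRing.div_surjective (A := C) x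
  simp only [map_div₀, ta_map, sg_add hρ]

lemma ta_zero (x : L) : ta L hρ 0 x = x := by
  obtain ⟨y, z, -, rfl⟩ := IsFractionRing.div_surjective (A := C) x
  simp only [map_div₀, ta_map, sg_zero hρ]

lemma ta_iter (n : ℕ) (a : k) (x : L) : (ta L hρ a)^[n] x = ta L hρ (n • a) x := by
  induction n generalizing x with
  | zero => rw [Function.iterate_zero, id, zero_smul, ta_zero]
  | succ n ih => rw [Function.iterate_succ_apply, ih, ta_add, succ_nsmul]

end tau

section integral

variable {k S κ : Type*} [CommRing k] [CommRing S] [Algebra k S] [AddCommGroup κ]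
  (σ : κ → S →+* S) (T : AddSubgroup κ) [Fintype T]
  (hadd : ∀ a b x, σ a (σ b x) = σ (a + b) x) (h0 : ∀ x, σ 0 x = x)

include hadd h0 in
/-- Integrality over the invariants of a finite group. -/
lemma int_group (R R' : Subalgebra k S) (hR : ∀ a ∈ T, ∀ x ∈ R, σ a x ∈ R)
    (hR' : ∀ x ∈ R, (∀ b ∈ T, σ b x = x) → x ∈ R') (f : S) (hf : f ∈ R) :
    IsIntegral R' f := by
  have hnf : ∀ b : T, σ (b : κ) (-f) ∈ R := fun b => hR b b.2 _ (R.neg_mem hf)
  let P : S[X] := nr σ T (-f)
  have hP : P.Monic := Polynomial.monic_prod_of_monic _ _ fun b _ => Polynomial.monic_X_add_C _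
  let P0 : R[X] := ∏ b : T, (X + C (⟨σ (b : κ) (-f), hnf b⟩ : R))
  have hP0 : P0.map (R.val : R →+* S) = P := by
    simp only [P, P0, nr, Polynomial.map_prod, Polynomial.map_add, Polynomial.map_X,
      Polynomial.map_C]
    rfl
  have hcoeff : ∀ i, P.coeff i ∈ R' := by
    intro i
    refine hR' _ ?_ fun b hb => nr_coeff_fixed σ T hadd (-f) b hb i
    rw [← hP0, Polynomial.coeff_map]
    exact (P0.coeff i).2
  have hsub : ((P.coeffs : Set S)) ⊆ R'.toSubring := by
    intro c hc
    obtain ⟨i, -, rfl⟩ := Polynomial.mem_coeffs_iff.1 hc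
    exact hcoeff i
  refine ⟨P.toSubring _ hsub, (Polynomial.monic_toSubring _ _ hsub).2 hP, ?_⟩
  have h1 : Polynomial.eval₂ R'.toSubring.subtype f (P.toSubring _ hsub) =
      Polynomial.eval f P := by
    rw [Polynomial.eval₂_eq_eval_map, Polynomial.map_toSubring]
  change Polynomial.eval₂ R'.toSubring.subtype f _ = 0
  rw [h1]
  change Polynomial.eval f (nr σ T (-f)) = 0
  unfold nr
  rw [Polynomial.eval_prod]
  refine Finset.prod_eq_zero (Finset.mem_univ (0 : T)) ?_
  simp [h0]

end integral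

end Pool.Agent.Y177.Ga
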